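import Mathlib

set_option autoImplicit false

/-!
# Injections of the initial segments into `ℕ` with countably many traces

`Ω` is a well-ordered set whose proper initial segments are countable. `exists_coh`: there are
`e δ : Ω → ℕ`, injective below `δ`, such that for each `η` the restrictions of the functions `e δ`,
`δ ≥ η`, to the elements below `η` are countable in number.
-/

namespace Pool.Agent.Helper87.RG

open Set

variable {Ω : Type} [LinearOrder Ω] [WellFoundedLT Ω]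

/-- the first index `n` with `a ≤ c n` -/
noncomputable def idx (c : ℕ → Ω) (a : Ω) : ℕ := sInf {n | a ≤ c n}

/-- the function of the walk along the enumerations `c` -/
noncomputable def e0 (c : Ω → ℕ → Ω) : Ω → Ω → ℕ :=
  open Classical in
  WellFounded.fix (C := fun _ => Ω → ℕ) (wellFounded_lt (α := Ω)) fun δ ih a =>
    if h : c δ (idx (c δ) a) < δ ∧ a < c δ (idx (c δ) a) then
      max (idx (c δ) a) (ih (c δ (idx (c δ) a)) h.1 a)
    else idx (c δ) a

open Classical in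
theorem e0_eq (c : Ω → ℕ → Ω) (δ a : Ω) : e0 c δ a =
    if _h : c δ (idx (c δ) a) < δ ∧ a < c δ (idx (c δ) a) then
      max (idx (c δ) a) (e0 c (c δ (idx (c δ) a)) a)
    else idx (c δ) a :=
  congrFun (WellFounded.fix_eq (C := fun _ => Ω → ℕ) (wellFounded_lt (α := Ω)) _ δ) a

/-- the function which vanishes from `η` on -/
noncomputable def tr (η : Ω) (f : Ω → ℕ) (a : Ω) : ℕ := open Classical in if a < η then f a else 0

omit [WellFoundedLT Ω] in
theorem tr_of_lt {η a : Ω} (f : Ω → ℕ) (h : a < η) : tr η f a = f a := if_pos h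

omit [WellFoundedLT Ω] in
theorem tr_of_not {η a : Ω} (f : Ω → ℕ) (h : ¬ a < η) : tr η f a = 0 := if_neg h

section

variable (c : Ω → ℕ → Ω) (hc1 : ∀ δ a, a < δ → ∀ n, c δ n < δ)
  (hc2 : ∀ δ a, a < δ → ∃ n, a ≤ c δ n)

include hc1 hc2

omit [WellFoundedLT Ω] hc1 in
private theorem idx_spec {δ a : Ω} (h : a < δ) : a ≤ c δ (idx (c δ) a) :=
  Nat.sInf_mem (s := {n | a ≤ c δ n}) (hc2 δ a h)

omit hc1 hc2 [WellFoundedLT Ω] in
private theorem idx_le {c : ℕ → Ω} {a : Ω} {n : ℕ} (h : a ≤ c n) : idx c a ≤ n :=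
  Nat.sInf_le h

private theorem e0_cases {δ a : Ω} (h : a < δ) :
    (a = c δ (idx (c δ) a) ∧ e0 c δ a = idx (c δ) a) ∨
      (a < c δ (idx (c δ) a) ∧ e0 c δ a = max (idx (c δ) a) (e0 c (c δ (idx (c δ) a)) a)) := by
  rcases (idx_spec c hc2 h).eq_or_lt with h1 | h1
  · left
    refine ⟨h1, ?_⟩
    rw [e0_eq, dif_neg]
    rintro ⟨_, h2⟩
    exact absurd h1 h2.ne
  · right
    refine ⟨h1, ?_⟩
    rw [e0_eq, dif_pos ⟨hc1 δ a h _, h1⟩]

private theorem idx_le_e0 {δ a : Ω} (h : a < δ) : idx (c δ) a ≤ e0 c δ a := by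
  rcases e0_cases c hc1 hc2 h with ⟨_, h1⟩ | ⟨_, h1⟩
  · exact h1.ge
  · rw [h1]
    exact le_max_left _ _

private theorem e0_main (δ : Ω) : (∀ n, {a | a < δ ∧ e0 c δ a ≤ n}.Finite) ∧
    ∀ γ < δ, {a | a < γ ∧ e0 c γ a ≠ e0 c δ a}.Finite := by
  induction δ using WellFoundedLT.induction with
  | ind δ ih =>
  constructor
  · intro n
    have h1 : (⋃ i ∈ Set.Iic n, ({c δ i} ∪ {a | c δ i < δ ∧ a < c δ i ∧ e0 c (c δ i) a ≤ n})).Finite := by
      refine (Set.finite_Iic n).biUnion fun i _ => (Set.finite_singleton _).union ?_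
      by_cases hi : c δ i < δ
      · refine ((ih _ hi).1 n).subset ?_
        rintro a ⟨_, h2, h3⟩
        exact ⟨h2, h3⟩
      · refine Set.Finite.subset Set.finite_empty ?_
        rintro a ⟨h2, _⟩
        exact absurd h2 hi
    refine h1.subset ?_
    rintro a ⟨ha, han⟩
    have h2 := idx_le_e0 c hc1 hc2 ha
    simp only [Set.mem_iUnion]
    refine ⟨idx (c δ) a, h2.trans han, ?_⟩
    rcases e0_cases c hc1 hc2 ha with ⟨h3, _⟩ | ⟨h3, h4⟩
    · exact Or.inl h3
    · right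
      refine ⟨hc1 δ a ha _, h3, ?_⟩
      rw [h4] at han
      exact (le_max_right _ _).trans han
  · intro γ hγ
    obtain ⟨k, hk⟩ := hc2 δ γ hγ
    have h1 : (⋃ i ∈ Set.Iic k, ({c δ i} ∪ ({a | a < c δ i ∧ e0 c (c δ i) a ≤ i} ∪
        {a | a < γ ∧ a < c δ i ∧ e0 c (c δ i) a ≠ e0 c γ a}))).Finite := by
      refine (Set.finite_Iic k).biUnion fun i _ => (Set.finite_singleton _).union ?_
      have hi : c δ i < δ := hc1 δ γ hγ i
      refine ((ih _ hi).1 i).union ?_
      rcases lt_trichotomy (c δ i) γ with h2 | h2 | h2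
      · refine ((ih γ hγ).2 _ h2).subset ?_
        rintro a ⟨_, h3, h4⟩
        exact ⟨h3, h4⟩
      · refine Set.Finite.subset Set.finite_empty ?_
        rintro a ⟨_, _, h4⟩
        rw [h2] at h4
        exact h4 rfl
      · refine ((ih _ hi).2 _ h2).subset ?_
        rintro a ⟨h3, _, h4⟩
        exact ⟨h3, fun h => h4 h.symm⟩
    refine h1.subset ?_
    rintro a ⟨ha, han⟩
    have hi : idx (c δ) a ≤ k := idx_le (ha.le.trans hk)
    simp only [Set.mem_iUnion]
    refine ⟨idx (c δ) a, hi, ?_⟩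
    rcases e0_cases c hc1 hc2 (ha.trans hγ) with ⟨h3, _⟩ | ⟨h3, h4⟩
    · exact Or.inl h3
    · right
      by_cases h5 : e0 c (c δ (idx (c δ) a)) a ≤ idx (c δ) a
      · exact Or.inl ⟨h3, h5⟩
      · right
        refine ⟨ha, h3, fun h6 => han ?_⟩
        rw [h4, ← h6, max_eq_right (by omega)]

end

/-- functions which differ from a given one at finitely many points of a countable set -/
private theorem countable_almost {S : Set Ω} (hS : S.Countable) (t0 : Ω → ℕ) :
    {t : Ω → ℕ | {a | t a ≠ t0 a}.Finite ∧ {a | t a ≠ t0 a} ⊆ S}.Countable := by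
  have h1 : {u : Set (Ω × ℕ) | u.Finite ∧ u ⊆ S ×ˢ (Set.univ : Set ℕ)}.Countable :=
    Set.countable_ofPred_finite_subset (hS.prod Set.countable_univ)
  refine Set.MapsTo.countable_of_injOn (f := fun t => {p : Ω × ℕ | p.2 = t p.1 ∧ t p.1 ≠ t0 p.1})
    ?_ ?_ h1
  · rintro t ⟨ht1, ht2⟩
    refine ⟨(ht1.image fun a => (a, t a)).subset ?_, ?_⟩
    · rintro ⟨a, n⟩ ⟨h2, h3⟩
      exact ⟨a, h3, Prod.ext rfl h2.symm⟩
    · rintro ⟨a, n⟩ ⟨_, h3⟩
      exact ⟨ht2 h3, Set.mem_univ _⟩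
  · intro t _ t' _ htt
    have htt' : ∀ a n, (n = t a ∧ t a ≠ t0 a) ↔ (n = t' a ∧ t' a ≠ t0 a) := by
      intro a n
      have := Set.ext_iff.1 htt (a, n)
      simpa using this
    funext a
    by_cases h2 : t a = t0 a
    · by_cases h3 : t' a = t0 a
      · rw [h2, h3]
      · exact ((htt' a (t' a)).2 ⟨rfl, h3⟩).1.symm
    · exact ((htt' a (t a)).1 ⟨rfl, h2⟩).1

theorem exists_coh (hc : ∀ a : Ω, (Set.Iio a).Countable) :
    ∃ e : Ω → Ω → ℕ, (∀ δ, Set.InjOn (e δ) (Set.Iio δ)) ∧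
      ∀ η, {t : Ω → ℕ | ∃ δ, η ≤ δ ∧ t = tr η (e δ)}.Countable := by
  classical
  have hcs : ∀ δ : Ω, ∃ c : ℕ → Ω, (∀ a, a < δ → ∀ n, c n < δ) ∧ ∀ a, a < δ → ∃ n, a ≤ c n := by
    intro δ
    rcases (Set.Iio δ).eq_empty_or_nonempty with h | h
    · refine ⟨fun _ => δ, fun a ha => ?_, fun a ha => ⟨0, ha.le⟩⟩
      have : a ∈ Set.Iio δ := ha
      rw [h] at this
      exact absurd this (Set.notMem_empty a)
    · obtain ⟨f, hf⟩ := (hc δ).exists_eq_range h
      refine ⟨f, fun a _ n => ?_, fun a ha => ?_⟩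
      · have : f n ∈ Set.Iio δ := by rw [hf]; exact ⟨n, rfl⟩
        exact this
      · have h1 : a ∈ Set.range f := by rw [← hf]; exact ha
        obtain ⟨n, hn⟩ := h1
        exact ⟨n, hn.ge⟩
  choose c hc1 hc2 using hcs
  have hm := e0_main c hc1 hc2
  -- the countable set of traces of `e0`
  have htr0 : ∀ η, {t : Ω → ℕ | ∃ δ, η ≤ δ ∧ t = tr η (e0 c δ)}.Countable := by
    intro η
    refine (countable_almost (hc η) (tr η (e0 c η))).mono ?_
    rintro t ⟨δ, hδ, rfl⟩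
    have h1 : {a | tr η (e0 c δ) a ≠ tr η (e0 c η) a} ⊆ {a | a < η ∧ e0 c η a ≠ e0 c δ a} := by
      intro a ha
      by_cases h2 : a < η
      · refine ⟨h2, fun h3 => ha ?_⟩
        rw [tr_of_lt _ h2, tr_of_lt _ h2, h3]
      · exact absurd (by rw [tr_of_not _ h2, tr_of_not _ h2]) ha
    refine ⟨Set.Finite.subset ?_ h1, fun a ha => (h1 ha).1⟩
    rcases hδ.eq_or_lt with h2 | h2
    · refine Set.Finite.subset Set.finite_empty ?_
      rintro a ⟨_, h3⟩
      rw [h2] at h3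
      exact h3 rfl
    · exact (hm δ).2 η h2
  refine ⟨fun δ a => Nat.pair (e0 c δ a) {b | b < a ∧ e0 c δ b = e0 c δ a}.ncard, ?_, ?_⟩
  · have key : ∀ δ a a' : Ω, a < a' → a' < δ → Nat.pair (e0 c δ a) {b | b < a ∧ e0 c δ b = e0 c δ a}.ncard =
        Nat.pair (e0 c δ a') {b | b < a' ∧ e0 c δ b = e0 c δ a'}.ncard → False := by
      intro δ a a' h1 h2 h3
      obtain ⟨h4, h5⟩ := Nat.pair_eq_pair.1 h3
      have h6 : {b | b < a ∧ e0 c δ b = e0 c δ a} ⊂ {b | b < a' ∧ e0 c δ b = e0 c δ a'} := by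
        rw [Set.ssubset_iff_of_subset]
        · exact ⟨a, ⟨h1, h4⟩, fun h => lt_irrefl a h.1⟩
        · rintro b ⟨h7, h8⟩
          exact ⟨h7.trans h1, h8.trans h4⟩
      have h7 : {b | b < a' ∧ e0 c δ b = e0 c δ a'}.Finite := by
        refine ((hm δ).1 (e0 c δ a')).subset ?_
        rintro b ⟨h8, h9⟩
        exact ⟨h8.trans h2, h9.le⟩
      exact absurd h5 (Set.ncard_lt_ncard h6 h7).ne
    intro δ a ha a' ha' haa
    rcases lt_trichotomy a a' with h | h | h
    · exact (key δ a a' h ha' haa).elim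
    · exact h
    · exact (key δ a' a h ha haa.symm).elim
  · intro η
    refine ((htr0 η).image (fun t => tr η fun a => Nat.pair (t a) {b | b < a ∧ t b = t a}.ncard)).mono ?_
    rintro t ⟨δ, hδ, rfl⟩
    refine ⟨tr η (e0 c δ), ⟨δ, hδ, rfl⟩, ?_⟩
    funext a
    by_cases h : a < η
    · show tr η _ a = tr η _ a
      rw [tr_of_lt _ h, tr_of_lt _ h, tr_of_lt _ h]
      congr 2
      ext b
      constructor
      · rintro ⟨h1, h2⟩
        rw [tr_of_lt _ (h1.trans h)] at h2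
        exact ⟨h1, h2⟩
      · rintro ⟨h1, h2⟩
        refine ⟨h1, ?_⟩
        rw [tr_of_lt _ (h1.trans h)]
        exact h2
    · show tr η _ a = tr η _ a
      rw [tr_of_not _ h, tr_of_not _ h]

end Pool.Agent.Helper87.RG
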