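import Mathlib
import Pool.Agent.Helper8.KP.Base

set_option autoImplicit false

/-!
# The definitions used by the statement
-/

namespace Pool.Agent.Helper87.RG

open Set
open Pool.Agent.Helper8.KP

/-- a set is a countable union of linked sets -/
def SigmaLinked {P : Type} [PartialOrder P] (E : Set P) : Prop :=
  ∃ W : ℕ → Set P, E ⊆ ⋃ n, W n ∧ ∀ n, ∀ p ∈ W n, ∀ q ∈ W n, Compat p q

/-- `E` is a countable union of sets which are linked as far as the elements of `A` can see -/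
def SigmaLinkedOver {P : Type} [PartialOrder P] (E A : Set P) : Prop :=
  ∃ W : ℕ → Set P, E ⊆ ⋃ n, W n ∧
    ∀ n, ∀ p ∈ W n, ∀ q ∈ W n, ∃ p' ≤ p, ∀ a ∈ A, Compat a p' → Compat a q

/-- Rectangular graphs: two uncountable families of pairwise disjoint finite sets of vertices always
contain two sets without an edge between them. -/
def Rectangular {V : Type*} (G : SimpleGraph V) : Prop :=
  ∀ 𝒜 ℬ : Set (Finset V), ¬ 𝒜.Countable → ¬ ℬ.Countable →
    (∀ A ∈ 𝒜, ∀ B ∈ 𝒜, A ≠ B → Disjoint A B) → (∀ A ∈ ℬ, ∀ B ∈ ℬ, A ≠ B → Disjoint A B) →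
    ∃ A ∈ 𝒜, ∃ B ∈ ℬ, ∀ a ∈ A, ∀ b ∈ B, ¬ G.Adj a b

/-- The finite independent sets of the graph form a ccc poset: every uncountable family of finite
independent sets has two different members with an independent union. -/
def CCCGraph {V : Type*} (G : SimpleGraph V) : Prop :=
  ∀ 𝒜 : Set (Finset V), ¬ 𝒜.Countable → (∀ F ∈ 𝒜, G.IsIndepSet (F : Set V)) →
    ∃ F ∈ 𝒜, ∃ F' ∈ 𝒜, F ≠ F' ∧ G.IsIndepSet ((F : Set V) ∪ (F' : Set V))

/-- countable sets have countably many traces of neighbourhoods -/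
def CountableTraces {V : Type*} (G : SimpleGraph V) : Prop :=
  ∀ A : Set V, A.Countable → (Set.range fun v => {w | w ∈ A ∧ G.Adj w v}).Countable

/-- complete subalgebras -/
def ComplSub {B : Type} [CompleteBooleanAlgebra B] (S : Set B) : Prop :=
  (∀ x ∈ S, xᶜ ∈ S) ∧ ∀ T, T ⊆ S → sSup T ∈ S

/-- countably generated complete subalgebras -/
def CtblGen {B : Type} [CompleteBooleanAlgebra B] (S : Set B) : Prop :=
  ∃ A : Set B, A.Countable ∧ ComplSub S ∧ A ⊆ S ∧ ∀ S', ComplSub S' → A ⊆ S' → S ⊆ S'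

/-- a countable union of linked sets -/
def SigmaLinkedB {B : Type} [CompleteBooleanAlgebra B] (E : Set B) : Prop :=
  ∃ W : ℕ → Set B, E ⊆ ⋃ n, W n ∧ ∀ n, ∀ x ∈ W n, ∀ y ∈ W n, x ⊓ y ≠ ⊥

/-- the countable chain condition -/
def CCCB (B : Type) [CompleteBooleanAlgebra B] : Prop :=
  ∀ A : Set B, ⊥ ∉ A → (∀ x ∈ A, ∀ y ∈ A, x ≠ y → x ⊓ y = ⊥) → A.Countable

end Pool.Agent.Helper87.RG
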