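import Mathlib
import Pool.Agent.Helper8.KP.Dom

set_option autoImplicit false

/-!
# Pressing down for finite data, disjoint subfamilies
-/

namespace Pool.Agent.Helper87.RG

open Set
open Pool.Agent.Helper8.KP (exists_gt_of_countable pigeon)

/-- the least strict upper bound of a strictly increasing sequence -/
theorem exists_limit {Ω : Type} [LinearOrder Ω] [WellFoundedLT Ω] [Uncountable Ω]
    (hc : ∀ a : Ω, (Set.Iio a).Countable) (s : ℕ → Ω) :
    ∃ η, (∀ n, s n < η) ∧ ∀ a < η, ∃ n, a ≤ s n := by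
  obtain ⟨γ, hγ⟩ := exists_gt_of_countable hc (Set.countable_range s)
  have hne : {x : Ω | ∀ n, s n < x}.Nonempty := ⟨γ, fun n => hγ _ ⟨n, rfl⟩⟩
  refine ⟨(wellFounded_lt (α := Ω)).min _ hne, (wellFounded_lt (α := Ω)).min_mem _ hne, ?_⟩
  intro a ha
  by_contra hcon
  push Not at hcon
  exact (wellFounded_lt (α := Ω)).not_lt_min (s := {x : Ω | ∀ n, s n < x}) hcon ha

/-- finite sets of elements of a countable set -/
theorem countable_finsets {α : Type*} {S : Set α} (hS : S.Countable) :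
    {F : Finset α | ∀ x ∈ F, x ∈ S}.Countable := by
  have h1 : {u : Set α | u.Finite ∧ u ⊆ S}.Countable := Set.countable_ofPred_finite_subset hS
  refine Set.MapsTo.countable_of_injOn (f := fun F : Finset α => (F : Set α)) ?_ ?_ h1
  · intro F hF
    exact ⟨F.finite_toSet, hF⟩
  · intro F _ G _ h
    exact Finset.coe_injective h

/-- pressing down for functions with finite values -/
theorem press {Ω : Type} [LinearOrder Ω] [WellFoundedLT Ω] [Uncountable Ω]
    (hc : ∀ a : Ω, (Set.Iio a).Countable) {β γ : Type} [Countable β] [Countable γ]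
    (π : Ω → Finset (β × Ω) × γ) (hπ : ∀ η, ∀ x ∈ (π η).1, x.2 < η) :
    ∃ v, ∀ ζ, ∃ η, ζ ≤ η ∧ π η = v := by
  classical
  by_contra hcon
  push Not at hcon
  choose b hb using hcon
  -- the values whose finite part is below `η`
  have hD : ∀ η : Ω, {v : Finset (β × Ω) × γ | ∀ x ∈ v.1, x.2 < η}.Countable := by
    intro η
    have h1 : {F : Finset (β × Ω) | ∀ x ∈ F, x ∈ (Set.univ : Set β) ×ˢ Set.Iio η}.Countable :=
      countable_finsets (Set.countable_univ.prod (hc η))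
    refine (h1.prod (Set.countable_univ (α := γ))).mono ?_
    rintro ⟨F, g⟩ h
    exact ⟨fun x hx => ⟨Set.mem_univ _, h x hx⟩, Set.mem_univ _⟩
  have hg : ∀ η : Ω, ∃ η', η < η' ∧ ∀ v : Finset (β × Ω) × γ, (∀ x ∈ v.1, x.2 < η) → b v < η' := by
    intro η
    obtain ⟨η', h⟩ := exists_gt_of_countable hc (((hD η).image b).insert η)
    exact ⟨η', h _ (Set.mem_insert _ _), fun v hv => h _ (Or.inr ⟨v, hv, rfl⟩)⟩
  choose g hg1 hg2 using hg
  have hne : Nonempty Ω := inferInstance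
  obtain ⟨s, hs⟩ : ∃ s : ℕ → Ω, ∀ n, s (n + 1) = g (s n) :=
    ⟨fun n => g^[n] (Classical.arbitrary Ω), fun n => Function.iterate_succ_apply' _ _ _⟩
  have hmono : StrictMono s := strictMono_nat_of_lt_succ fun n => by rw [hs]; exact hg1 _
  obtain ⟨η, h1, h2⟩ := exists_limit hc s
  have h3 : ∀ F : Finset (β × Ω), (∀ x ∈ F, x.2 < η) → ∃ n, ∀ x ∈ F, x.2 < s n := by
    intro F
    induction F using Finset.induction_on with
    | empty => exact fun _ => ⟨0, fun x hx => absurd hx (Finset.notMem_empty x)⟩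
    | insert x F _ ih =>
      intro hF
      obtain ⟨n, hn⟩ := ih fun y hy => hF y (Finset.mem_insert_of_mem hy)
      obtain ⟨k, hk⟩ := h2 x.2 (hF x (Finset.mem_insert_self _ _))
      refine ⟨max n (k + 1), fun y hy => ?_⟩
      rcases Finset.mem_insert.1 hy with rfl | hy
      · exact hk.trans_lt (hmono (lt_of_lt_of_le (Nat.lt_succ_self k) (le_max_right _ _)))
      · exact (hn y hy).trans_le (hmono.monotone (le_max_left _ _))
  obtain ⟨n, hn⟩ := h3 (π η).1 (hπ η)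
  have h4 : b (π η) < s (n + 1) := by rw [hs]; exact hg2 _ _ hn
  exact hb (π η) η (h4.trans (h1 _)).le rfl

/-- a family of finite sets which go to infinity contains an uncountable disjoint subfamily -/
theorem exists_disj {Ω : Type} [LinearOrder Ω] [WellFoundedLT Ω] [Uncountable Ω]
    (hc : ∀ a : Ω, (Set.Iio a).Countable) (N : Ω → Finset Ω) (hN : ∀ η, ∀ a ∈ N η, η ≤ a)
    {S : Set Ω} (hS : ∀ ζ, ∃ η, ζ ≤ η ∧ η ∈ S) (hne : ∀ η ∈ S, (N η).Nonempty) :
    ∃ 𝒜 : Set (Finset Ω), ¬ 𝒜.Countable ∧ (∀ A ∈ 𝒜, ∃ η ∈ S, A = N η) ∧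
      ∀ A ∈ 𝒜, ∀ B ∈ 𝒜, A ≠ B → Disjoint A B := by
  classical
  obtain ⟨𝒜, h𝒜⟩ := zorn_subset {𝒞 : Set (Finset Ω) | (∀ A ∈ 𝒞, ∃ η ∈ S, A = N η) ∧
      ∀ A ∈ 𝒞, ∀ B ∈ 𝒞, A ≠ B → Disjoint A B} (by
    intro 𝔠 h𝔠 hch
    refine ⟨⋃₀ 𝔠, ⟨?_, ?_⟩, fun 𝒞 h𝒞 => Set.subset_sUnion_of_mem h𝒞⟩
    · rintro A ⟨𝒞, h𝒞, hA⟩
      exact (h𝔠 h𝒞).1 A hA
    · rintro A ⟨𝒞, h𝒞, hA⟩ B ⟨𝒟, h𝒟, hB⟩ hAB
      rcases hch.total h𝒞 h𝒟 with h | h
      · exact (h𝔠 h𝒟).2 A (h hA) B hB hAB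
      · exact (h𝔠 h𝒞).2 A hA B (h hB) hAB)
  refine ⟨𝒜, ?_, h𝒜.prop.1, h𝒜.prop.2⟩
  intro hcount
  have h1 : (⋃ A ∈ 𝒜, (A : Set Ω)).Countable := hcount.biUnion fun A _ => A.countable_toSet
  obtain ⟨γ, hγ⟩ := exists_gt_of_countable hc h1
  obtain ⟨η, hη, hηS⟩ := hS γ
  have hdisj : ∀ A ∈ 𝒜, Disjoint A (N η) := by
    intro A hA
    rw [Finset.disjoint_left]
    intro a ha haN
    exact absurd (hγ a (Set.mem_biUnion hA ha)) (not_lt.2 (hη.trans (hN η a haN)))
  have h2 : N η ∈ 𝒜 := by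
    refine h𝒜.le_of_ge (y := insert (N η) 𝒜) ⟨?_, ?_⟩ (Set.subset_insert _ _) (Set.mem_insert _ _)
    · rintro A (rfl | hA)
      · exact ⟨η, hηS, rfl⟩
      · exact h𝒜.prop.1 A hA
    · rintro A (rfl | hA) B (rfl | hB) hAB
      · exact absurd rfl hAB
      · exact (hdisj B hB).symm
      · exact hdisj A hA
      · exact h𝒜.prop.2 A hA B hB hAB
  obtain ⟨a, ha⟩ := hne η hηS
  exact Finset.disjoint_left.1 (hdisj _ h2) ha ha

/-- pigeonhole principle for a countable set of values -/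
theorem pigeon_set {I J : Type*} {A : Set I} (hA : ¬ A.Countable) (g : I → J) {T : Set J}
    (hT : T.Countable) (hg : ∀ i ∈ A, g i ∈ T) : ∃ j ∈ T, ¬ {i ∈ A | g i = j}.Countable := by
  by_contra h
  push Not at h
  apply hA
  refine (hT.biUnion h).mono ?_
  intro i hi
  exact Set.mem_biUnion (hg i hi) ⟨hi, rfl⟩

/-- two elements of an uncountable set -/
theorem exists_two {I : Type*} {A : Set I} (hA : ¬ A.Countable) : ∃ a ∈ A, ∃ b ∈ A, a ≠ b := by
  by_contra h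
  push Not at h
  apply hA
  refine Set.Subsingleton.countable ?_
  intro a ha b hb
  exact h a ha b hb

end Pool.Agent.Helper87.RG
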