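import Mathlib
import Pool.Agent.Helper87.RG.Def
import Pool.Agent.Helper87.RG.Coh
import Pool.Agent.Helper87.RG.Press

set_option autoImplicit false

/-!
# The graph of readings has a ccc clique poset

`Rd e δ i a`: `a` is the `i`-th reading of `δ`. `NP G e δ i j`: the `i`-th and the `j`-th reading of `δ`
exist and are not adjacent. `Rel`: below the first difference of the reals `y δ`, `y ε` no reading of `δ`
is adjacent to a reading of `ε`, when the corresponding readings of `δ` are not adjacent.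
-/

namespace Pool.Agent.Helper87.RG

open Set
open Pool.Agent.Helper8.KP (pigeon)

variable {Ω : Type} [LinearOrder Ω]

/-- `a` is the `i`-th reading of `δ` -/
def Rd (e : Ω → Ω → ℕ) (δ : Ω) (i : ℕ) (a : Ω) : Prop := a < δ ∧ e δ a = i

/-- the readings `i` and `j` of `δ` exist and are not adjacent -/
def NP (G : SimpleGraph Ω) (e : Ω → Ω → ℕ) (δ : Ω) (i j : ℕ) : Prop :=
  ∃ a b, Rd e δ i a ∧ Rd e δ j b ∧ ¬ G.Adj a b

/-- the relation between `δ` and `ε` -/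
def Rel {C : Type} (G : SimpleGraph Ω) (e : Ω → Ω → ℕ) (y : Ω → ℕ → C) (δ ε : Ω) : Prop :=
  ∀ i j a b, Rd e δ i a → Rd e ε j b → NP G e δ i j →
    (∀ k, k ≤ i ∨ k ≤ j → y δ k = y ε k) → ¬ G.Adj a b

/-- the initial segment of length `N` of the real `y x` -/
def node {Ω C : Type} (y : Ω → ℕ → C) (N : ℕ) (x : Ω) : List C := (List.range N).map (y x)

theorem node_eq {Ω C : Type} {y : Ω → ℕ → C} {N : ℕ} {x x' : Ω} :
    node y N x = node y N x' ↔ ∀ k < N, y x k = y x' k := by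
  rw [node, node, List.map_inj_left]
  simp

theorem rel_symm {C : Type} {G : SimpleGraph Ω} {e : Ω → Ω → ℕ} {y : Ω → ℕ → C}
    (hpat : ∀ δ ε i j, (∀ k, k ≤ i ∨ k ≤ j → y δ k = y ε k) → NP G e δ i j → NP G e ε i j)
    {δ ε : Ω} (h : Rel G e y δ ε) : Rel G e y ε δ := by
  intro i j a b ha hb hn hag hadj
  obtain ⟨a', b', h1, h2, h3⟩ := hpat ε δ i j hag hn
  exact h j i b a hb ha ⟨b', a', h2, h1, fun h4 => h3 h4.symm⟩
    (fun k hk => (hag k hk.symm).symm) hadj.symm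

theorem core [WellFoundedLT Ω] [Uncountable Ω] (hc : ∀ a : Ω, (Set.Iio a).Countable)
    {G : SimpleGraph Ω} (hG : Rectangular G) {e : Ω → Ω → ℕ}
    (he : ∀ δ, Set.InjOn (e δ) (Set.Iio δ))
    (het : ∀ η, {t : Ω → ℕ | ∃ δ, η ≤ δ ∧ t = tr η (e δ)}.Countable)
    {C : Type} [Countable C] {y : Ω → ℕ → C} (hy : Function.Injective y)
    (hpat : ∀ δ ε i j, (∀ k, k ≤ i ∨ k ≤ j → y δ k = y ε k) → NP G e δ i j → NP G e ε i j)
    (𝒜 : Set (Finset Ω)) (m : ℕ) (hA : ¬ 𝒜.Countable) (hne : ∀ F ∈ 𝒜, F.Nonempty)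
    (hcard : ∀ F ∈ 𝒜, F.card = m) (hdis : ∀ F ∈ 𝒜, ∀ F' ∈ 𝒜, F ≠ F' → Disjoint F F')
    (hclq : ∀ F ∈ 𝒜, ∀ a ∈ F, ∀ b ∈ F, a ≠ b → Rel G e y a b) :
    ∃ F ∈ 𝒜, ∃ F' ∈ 𝒜, F ≠ F' ∧ ∀ a ∈ F, ∀ b ∈ F', Rel G e y a b ∧ Rel G e y b a := by
  classical
  have hm : 0 < m := by
    obtain ⟨F, hF, _⟩ := exists_two hA
    rw [← hcard F hF]
    exact Finset.card_pos.2 (hne F hF)
  -- enumerations
  have hf : ∀ F : Finset Ω, ∃ f : Fin m → Ω, F ∈ 𝒜 →
      Function.Injective f ∧ (∀ l, f l ∈ F) ∧ ∀ a ∈ F, ∃ l, f l = a := by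
    intro F
    by_cases h : F ∈ 𝒜
    · refine ⟨F.orderEmbOfFin (hcard F h), fun _ => ⟨(F.orderEmbOfFin (hcard F h)).injective,
        fun l => Finset.orderEmbOfFin_mem _ _ _, fun a ha => ?_⟩⟩
      have h1 : a ∈ Set.range (F.orderEmbOfFin (hcard F h)) := by
        rw [Finset.range_orderEmbOfFin]
        exact ha
      exact h1
    · exact ⟨fun _ => Classical.arbitrary Ω, fun h' => absurd h' h⟩
  choose f hf using hf
  have hf1 : ∀ F ∈ 𝒜, Function.Injective (f F) := fun F hF => (hf F hF).1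
  have hf2 : ∀ F ∈ 𝒜, ∀ l, f F l ∈ F := fun F hF => (hf F hF).2.1
  have hf3 : ∀ F ∈ 𝒜, ∀ a ∈ F, ∃ l, f F l = a := fun F hF => (hf F hF).2.2
  -- a level which separates two points
  have hd : ∀ x x' : Ω, ∃ k, x ≠ x' → y x k ≠ y x' k := by
    intro x x'
    by_cases h : x = x'
    · exact ⟨0, fun h' => absurd h h'⟩
    · by_contra hcon
      push Not at hcon
      exact h (hy (funext fun k => (hcon k).2))
  choose d hd using hd
  have hdn : ∀ x x' N, x ≠ x' → d x x' < N → node y N x ≠ node y N x' := by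
    intro x x' N h1 h2 h3
    exact hd x x' h1 (node_eq.1 h3 _ h2)
  -- Step 1: fixed separated nodes
  obtain ⟨Ks, hKs⟩ := pigeon hA (fun F =>
    ((Finset.univ.sup fun l : Fin m => Finset.univ.sup fun l' : Fin m => d (f F l) (f F l') + 1),
      fun l : Fin m => node y (Finset.univ.sup fun l : Fin m => Finset.univ.sup
        fun l' : Fin m => d (f F l) (f F l') + 1) (f F l)))
  obtain ⟨K, s⟩ := Ks
  set 𝒜1 : Set (Finset Ω) := {F ∈ 𝒜 | (fun F =>
    ((Finset.univ.sup fun l : Fin m => Finset.univ.sup fun l' : Fin m => d (f F l) (f F l') + 1),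
      fun l : Fin m => node y (Finset.univ.sup fun l : Fin m => Finset.univ.sup
        fun l' : Fin m => d (f F l) (f F l') + 1) (f F l))) F = (K, s)} with h𝒜1
  have hA1 : ∀ F ∈ 𝒜1, F ∈ 𝒜 := fun F hF => hF.1
  have hK1 : ∀ F ∈ 𝒜1, ∀ l, node y K (f F l) = s l := by
    rintro F ⟨_, hF⟩ l
    obtain ⟨h1, h2⟩ := Prod.mk.inj hF
    rw [h1] at h2
    exact congrFun h2 l
  have hK2 : ∀ F ∈ 𝒜1, ∀ l l', l ≠ l' → d (f F l) (f F l') < K := by
    rintro F ⟨_, hF⟩ l l' _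
    obtain ⟨h1, _⟩ := Prod.mk.inj hF
    have h3 : d (f F l) (f F l') + 1 ≤ Finset.univ.sup fun l' : Fin m => d (f F l) (f F l') + 1 :=
      Finset.le_sup (f := fun l' : Fin m => d (f F l) (f F l') + 1) (Finset.mem_univ l')
    have h4 : (Finset.univ.sup fun l' : Fin m => d (f F l) (f F l') + 1) ≤
        Finset.univ.sup fun l : Fin m => Finset.univ.sup fun l' : Fin m => d (f F l) (f F l') + 1 :=
      Finset.le_sup (f := fun l : Fin m => Finset.univ.sup fun l' : Fin m =>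
        d (f F l) (f F l') + 1) (Finset.mem_univ l)
    omega
  have hs : ∀ l l', l ≠ l' → s l ≠ s l' := by
    intro l l' hll
    obtain ⟨F, hF, _⟩ := exists_two hKs
    rw [← hK1 F hF l, ← hK1 F hF l']
    exact hdn _ _ _ (fun h => hll (hf1 F (hA1 F hF) h)) (hK2 F hF l l' hll)
  -- Step 2: pairs with the same traces
  have hpair : ∀ η : Ω, ∃ F0 ∈ 𝒜1, ∃ F1 ∈ 𝒜1, F0 ≠ F1 ∧ (∀ a ∈ F0, η ≤ a) ∧ (∀ a ∈ F1, η ≤ a) ∧
      ∀ l, tr η (e (f F0 l)) = tr η (e (f F1 l)) := by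
    intro η
    have h1 : ¬ {F ∈ 𝒜1 | ∀ a ∈ F, η ≤ a}.Countable := by
      intro hcon
      apply hKs
      have h2 : (⋃ a ∈ Set.Iio η, {F ∈ 𝒜 | a ∈ F}).Countable := by
        refine (hc η).biUnion fun a _ => Set.Subsingleton.countable ?_
        intro F hF F' hF'
        by_contra hFF
        exact Finset.disjoint_left.1 (hdis F hF.1 F' hF'.1 hFF) hF.2 hF'.2
      refine (hcon.union h2).mono ?_
      intro F hF
      by_cases h3 : ∀ a ∈ F, η ≤ a
      · exact Or.inl ⟨hF, h3⟩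
      · push Not at h3
        obtain ⟨a, ha, haη⟩ := h3
        exact Or.inr (Set.mem_biUnion haη ⟨hA1 F hF, ha⟩)
    have hT : {g : Fin m → Ω → ℕ | ∀ l, g l ∈ {t : Ω → ℕ | ∃ δ, η ≤ δ ∧ t = tr η (e δ)}}.Countable :=
      Set.countable_pi fun _ => het η
    obtain ⟨t, _, ht⟩ := pigeon_set h1 (fun F => fun l : Fin m => tr η (e (f F l))) hT
      (fun F hF l => ⟨f F l, hF.2 _ (hf2 F (hA1 F hF.1) l), rfl⟩)
    obtain ⟨F0, h0, F1, h1', hne'⟩ := exists_two ht
    refine ⟨F0, h0.1.1, F1, h1'.1.1, hne', h0.1.2, h1'.1.2, fun l => ?_⟩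
    exact (congrFun h0.2 l).trans (congrFun h1'.2 l).symm
  choose F0 hF0 F1 hF1 hF01 hη0 hη1 htr using hpair
  have hne01 : ∀ η l, f (F0 η) l ≠ f (F1 η) l := by
    intro η l h
    refine Finset.disjoint_left.1 (hdis _ (hA1 _ (hF0 η)) _ (hA1 _ (hF1 η)) (hF01 η))
      (hf2 _ (hA1 _ (hF0 η)) l) ?_
    rw [h]
    exact hf2 _ (hA1 _ (hF1 η)) l
  -- Step 3: the level `M`
  have hM : ∀ η, ∃ M, K ≤ M ∧ ∀ l, node y M (f (F0 η) l) ≠ node y M (f (F1 η) l) := by
    intro η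
    refine ⟨max K (Finset.univ.sup fun l : Fin m => d (f (F0 η) l) (f (F1 η) l) + 1),
      le_max_left _ _, fun l => hdn _ _ _ (hne01 η l) ?_⟩
    have h3 : d (f (F0 η) l) (f (F1 η) l) + 1 ≤
        Finset.univ.sup fun l : Fin m => d (f (F0 η) l) (f (F1 η) l) + 1 :=
      Finset.le_sup (f := fun l : Fin m => d (f (F0 η) l) (f (F1 η) l) + 1) (Finset.mem_univ l)
    have h4 := le_max_right K (Finset.univ.sup fun l : Fin m => d (f (F0 η) l) (f (F1 η) l) + 1)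
    omega
  choose M hKM hMn using hM
  -- Step 4: the root data
  have hfin : ∀ η, {x : (Fin m × ℕ) × Ω | x.2 < η ∧ e (f (F0 η) x.1.1) x.2 = x.1.2 ∧
      x.1.2 < M η}.Finite := by
    intro η
    have h1 : {p : Fin m × ℕ | p.2 < M η}.Finite := by
      refine (Set.finite_univ.prod (Set.finite_Iio (M η))).subset ?_
      rintro ⟨l, i⟩ hi
      exact ⟨Set.mem_univ _, hi⟩
    refine Set.Finite.of_injOn (f := Prod.fst) (t := {p : Fin m × ℕ | p.2 < M η}) ?_ ?_ h1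
    · rintro x ⟨_, _, h⟩
      exact h
    · rintro ⟨⟨l, i⟩, a⟩ ⟨h2, h3, _⟩ ⟨⟨l', i'⟩, a'⟩ ⟨h2', h3', _⟩ hxx
      obtain ⟨rfl, rfl⟩ := Prod.mk.inj hxx
      have hl := hη0 η _ (hf2 _ (hA1 _ (hF0 η)) l)
      have h4 : a = a' := he _ (show a < f (F0 η) l from h2.trans_le hl)
        (show a' < f (F0 η) l from h2'.trans_le hl) (h3.trans h3'.symm)
      rw [h4]
  obtain ⟨v, hv⟩ := press hc (fun η => ((hfin η).toFinset,
    (M η, (fun l : Fin m => node y (M η) (f (F0 η) l)), fun l : Fin m => node y (M η) (f (F1 η) l))))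
    (by
      intro η x hx
      rw [Set.Finite.mem_toFinset] at hx
      exact hx.1)
  obtain ⟨ρ, M', n0, n1⟩ := v
  -- the unbounded set
  obtain ⟨S, hS⟩ : ∃ S : Set Ω, S = {η | ((hfin η).toFinset,
    (M η, (fun l : Fin m => node y (M η) (f (F0 η) l)), fun l : Fin m =>
      node y (M η) (f (F1 η) l))) = (ρ, M', n0, n1)} := ⟨_, rfl⟩
  have hSu : ∀ ζ, ∃ η, ζ ≤ η ∧ η ∈ S := by
    intro ζ
    obtain ⟨η, h1, h2⟩ := hv ζ
    exact ⟨η, h1, by rw [hS]; exact h2⟩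
  have hSM : ∀ η ∈ S, M η = M' := by
    intro η hη
    rw [hS] at hη
    exact (Prod.mk.inj (Prod.mk.inj hη).2).1
  have hSn0 : ∀ η ∈ S, ∀ l, node y M' (f (F0 η) l) = n0 l := by
    intro η hη l
    have h1 := hSM η hη
    rw [hS] at hη
    have h2 := (Prod.mk.inj (Prod.mk.inj (Prod.mk.inj hη).2).2).1
    rw [← h1]
    exact congrFun h2 l
  have hSn1 : ∀ η ∈ S, ∀ l, node y M' (f (F1 η) l) = n1 l := by
    intro η hη l
    have h1 := hSM η hη
    rw [hS] at hη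
    have h2 := (Prod.mk.inj (Prod.mk.inj (Prod.mk.inj hη).2).2).2
    rw [← h1]
    exact congrFun h2 l
  have hρ0 : ∀ η ∈ S, ∀ l i a, (((l, i), a) ∈ ρ ↔ a < η ∧ e (f (F0 η) l) a = i ∧ i < M') := by
    intro η hη l i a
    have h1 := hSM η hη
    rw [hS] at hη
    have h2 := (Prod.mk.inj hη).1
    rw [← h2, Set.Finite.mem_toFinset, ← h1]
    exact Iff.rfl
  have hρ1 : ∀ η ∈ S, ∀ l i a, (((l, i), a) ∈ ρ ↔ a < η ∧ e (f (F1 η) l) a = i ∧ i < M') := by
    intro η hη l i a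
    rw [hρ0 η hη l i a]
    refine and_congr_right fun h1 => ?_
    have h2 := congrFun (htr η l) a
    rw [tr_of_lt _ h1, tr_of_lt _ h1] at h2
    rw [h2]
  have hKM' : K ≤ M' := by
    obtain ⟨η, _, hη⟩ := hSu (Classical.arbitrary Ω)
    rw [← hSM η hη]
    exact hKM η
  have hn01 : ∀ l, n0 l ≠ n1 l := by
    intro l
    obtain ⟨η, _, hη⟩ := hSu (Classical.arbitrary Ω)
    rw [← hSn0 η hη l, ← hSn1 η hη l, ← hSM η hη]
    exact hMn η l
  -- Step 6: readings above `η`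
  have hNfin : ∀ (F : Ω → Finset Ω), ∀ η, {a | η ≤ a ∧ ∃ l, a < f (F η) l ∧
      e (f (F η) l) a < M'}.Finite := by
    intro F η
    have h1 : (⋃ l : Fin m, {a | a < f (F η) l ∧ e (f (F η) l) a < M'}).Finite := by
      refine Set.finite_iUnion fun l => ?_
      refine Set.Finite.of_injOn (f := e (f (F η) l)) (t := Set.Iio M') ?_ ?_ (Set.finite_Iio M')
      · rintro a ⟨_, h⟩
        exact h
      · exact (he (f (F η) l)).mono fun a ha => ha.1
    refine h1.subset ?_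
    rintro a ⟨_, l, h2, h3⟩
    exact Set.mem_iUnion.2 ⟨l, h2, h3⟩
  obtain ⟨η0, hη0S, η1, hη1S, hnoedge⟩ : ∃ η0 ∈ S, ∃ η1 ∈ S, ∀ a ∈ (hNfin F0 η0).toFinset,
      ∀ b ∈ (hNfin F1 η1).toFinset, ¬ G.Adj a b := by
    obtain ⟨ηx, _, hηx⟩ := hSu (Classical.arbitrary Ω)
    by_cases h0 : ∃ η ∈ S, ¬ (hNfin F0 η).toFinset.Nonempty
    · obtain ⟨η, hη, h1⟩ := h0
      refine ⟨η, hη, ηx, hηx, fun a ha => ?_⟩
      exact absurd ⟨a, ha⟩ h1
    by_cases h1 : ∃ η ∈ S, ¬ (hNfin F1 η).toFinset.Nonempty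
    · obtain ⟨η, hη, h1⟩ := h1
      refine ⟨ηx, hηx, η, hη, fun a _ b hb => ?_⟩
      exact absurd ⟨b, hb⟩ h1
    push Not at h0 h1
    obtain ⟨𝒜', hA', hA'S, hA'd⟩ := exists_disj hc (fun η => (hNfin F0 η).toFinset)
      (fun η a ha => (((hNfin F0 η).mem_toFinset).1 ha).1) hSu (fun η hη => h0 η hη)
    obtain ⟨ℬ', hB', hB'S, hB'd⟩ := exists_disj hc (fun η => (hNfin F1 η).toFinset)
      (fun η a ha => (((hNfin F1 η).mem_toFinset).1 ha).1) hSu (fun η hη => h1 η hη)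
    obtain ⟨A, hAm, B, hBm, hAB⟩ := hG 𝒜' ℬ' hA' hB' hA'd hB'd
    obtain ⟨η0, hη0S, rfl⟩ := hA'S A hAm
    obtain ⟨η1, hη1S, rfl⟩ := hB'S B hBm
    exact ⟨η0, hη0S, η1, hη1S, hAB⟩
  -- Step 7: conclusion
  have hge0 : ∀ l, η0 ≤ f (F0 η0) l := fun l => hη0 η0 _ (hf2 _ (hA1 _ (hF0 η0)) l)
  have hge1 : ∀ l, η1 ≤ f (F1 η1) l := fun l => hη1 η1 _ (hf2 _ (hA1 _ (hF1 η1)) l)
  have hcross : ∀ l l', Rel G e y (f (F0 η0) l) (f (F1 η1) l') := by
    intro l l' i j a b ha hb hn hag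
    -- both readings non-root
    have hnon : i < M' → j < M' → η0 ≤ a → η1 ≤ b → ¬ G.Adj a b := by
      intro hi hj h1 h2
      refine hnoedge a ?_ b ?_
      · rw [Set.Finite.mem_toFinset]
        exact ⟨h1, l, ha.1, by rw [ha.2]; exact hi⟩
      · rw [Set.Finite.mem_toFinset]
        exact ⟨h2, l', hb.1, by rw [hb.2]; exact hj⟩
    by_cases hll : l = l'
    · subst hll
      have hlt : ∀ N, (N ≤ i ∨ N ≤ j) → N < M' := by
        intro N hN
        by_contra hcon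
        push Not at hcon
        apply hn01 l
        rw [← hSn0 η0 hη0S l, ← hSn1 η1 hη1S l]
        refine node_eq.2 fun k hk => hag k ?_
        rcases hN with hN | hN
        · left; omega
        · right; omega
      have hi := hlt i (Or.inl le_rfl)
      have hj := hlt j (Or.inr le_rfl)
      rcases lt_or_ge a η0 with h1 | h1
      · have h2 := (hρ0 η0 hη0S l i a).2 ⟨h1, ha.2, hi⟩
        obtain ⟨h3, h4, _⟩ := (hρ1 η1 hη1S l i a).1 h2
        obtain ⟨a', b', ha', hb', hab⟩ := hpat _ _ i j hag hn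
        have e1 : a' = a := he _ ha'.1 (show a < f (F1 η1) l from h3.trans_le (hge1 l))
          (ha'.2.trans h4.symm)
        have e2 : b' = b := he _ hb'.1 hb.1 (hb'.2.trans hb.2.symm)
        rw [e1, e2] at hab
        exact hab
      · rcases lt_or_ge b η1 with h2 | h2
        · have h3 := (hρ1 η1 hη1S l j b).2 ⟨h2, hb.2, hj⟩
          obtain ⟨h4, h5, _⟩ := (hρ0 η0 hη0S l j b).1 h3
          obtain ⟨a', b', ha', hb', hab⟩ := hn
          have e1 : a' = a := he _ ha'.1 ha.1 (ha'.2.trans ha.2.symm)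
          have e2 : b' = b := he _ hb'.1 (show b < f (F0 η0) l from h4.trans_le (hge0 l))
            (hb'.2.trans h5.symm)
          rw [e1, e2] at hab
          exact hab
        · exact hnon hi hj h1 h2
    · have hn0 : node y K (f (F0 η0) l) = s l := hK1 _ (hF0 η0) l
      have hn0' : node y K (f (F0 η0) l') = s l' := hK1 _ (hF0 η0) l'
      have hn1 : node y K (f (F1 η1) l) = s l := hK1 _ (hF1 η1) l
      have hn1' : node y K (f (F1 η1) l') = s l' := hK1 _ (hF1 η1) l'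
      have hlt : ∀ N, (N ≤ i ∨ N ≤ j) → N < K := by
        intro N hN
        by_contra hcon
        push Not at hcon
        apply hs l l' hll
        rw [← hn0, ← hn1']
        refine node_eq.2 fun k hk => hag k ?_
        rcases hN with hN | hN
        · left; omega
        · right; omega
      have hi := hlt i (Or.inl le_rfl)
      have hj := hlt j (Or.inr le_rfl)
      rcases lt_or_ge a η0 with h1 | h1
      · have h2 := (hρ0 η0 hη0S l i a).2 ⟨h1, ha.2, by omega⟩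
        obtain ⟨h3, h4, _⟩ := (hρ1 η1 hη1S l i a).1 h2
        have h5 : ∀ k < K, y (f (F0 η0) l) k = y (f (F1 η1) l) k := node_eq.1 (hn0.trans hn1.symm)
        have h6 : NP G e (f (F1 η1) l) i j :=
          hpat _ _ i j (fun k hk => h5 k (by rcases hk with hk | hk <;> omega)) hn
        refine hclq _ (hA1 _ (hF1 η1)) _ (hf2 _ (hA1 _ (hF1 η1)) l) _ (hf2 _ (hA1 _ (hF1 η1)) l')
          (fun h => hll (hf1 _ (hA1 _ (hF1 η1)) h)) i j a b ⟨h3.trans_le (hge1 l), h4⟩ hb h6 ?_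
        intro k hk
        rw [← h5 k (by rcases hk with hk | hk <;> omega)]
        exact hag k hk
      · rcases lt_or_ge b η1 with h2 | h2
        · have h3 := (hρ1 η1 hη1S l' j b).2 ⟨h2, hb.2, by omega⟩
          obtain ⟨h4, h5, _⟩ := (hρ0 η0 hη0S l' j b).1 h3
          have h6 : ∀ k < K, y (f (F0 η0) l') k = y (f (F1 η1) l') k :=
            node_eq.1 (hn0'.trans hn1'.symm)
          refine hclq _ (hA1 _ (hF0 η0)) _ (hf2 _ (hA1 _ (hF0 η0)) l) _
            (hf2 _ (hA1 _ (hF0 η0)) l') (fun h => hll (hf1 _ (hA1 _ (hF0 η0)) h)) i j a b ha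
            ⟨h4.trans_le (hge0 l'), h5⟩ hn ?_
          intro k hk
          rw [h6 k (by rcases hk with hk | hk <;> omega)]
          exact hag k hk
        · exact hnon (by omega) (by omega) h1 h2
  refine ⟨F0 η0, hA1 _ (hF0 η0), F1 η1, hA1 _ (hF1 η1), ?_, ?_⟩
  · intro h
    have l0 : Fin m := ⟨0, hm⟩
    apply hn01 l0
    rw [← hSn0 η0 hη0S l0, ← hSn1 η1 hη1S l0, h]
  · intro a ha b hb
    obtain ⟨l, rfl⟩ := hf3 _ (hA1 _ (hF0 η0)) a ha
    obtain ⟨l', rfl⟩ := hf3 _ (hA1 _ (hF1 η1)) b hb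
    exact ⟨hcross l l', rel_symm hpat (hcross l l')⟩

end Pool.Agent.Helper87.RG
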