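import Mathlib
import Pool.Agent.Helper87.RG.Core

set_option autoImplicit false

/-!
# Examples of rectangular graphs
-/

namespace Pool.Agent.Helper87.RG

open Set

/-- a graph such that every uncountable set of vertices contains a finite set with only countably many
common neighbours is rectangular -/
theorem rectangular_of_common {V : Type*} (G : SimpleGraph V)
    (h : ∀ S : Set V, ¬ S.Countable → ∃ F : Finset V, (∀ a ∈ F, a ∈ S) ∧
      {v : V | ∀ a ∈ F, G.Adj a v}.Countable) : Rectangular G := by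
  classical
  intro 𝒜 ℬ hA hB hAd hBd
  by_contra hcon
  push Not at hcon
  obtain ⟨n, hn⟩ := Pool.Agent.Helper8.KP.pigeon hB (fun B => B.card)
  set 𝒞 := {B ∈ ℬ | B.card = n} with h𝒞
  -- the filter of sets containing almost all members of `𝒞`
  let f : Filter (Finset V) :=
    { sets := {T | (𝒞 \ T).Countable}
      univ_sets := by
        change (𝒞 \ Set.univ).Countable
        rw [Set.sdiff_univ]
        exact Set.countable_empty
      sets_of_superset := by
        intro T T' hT hTT'
        exact Set.Countable.mono (Set.sdiff_subset_sdiff_right hTT') hT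
      inter_sets := by
        intro T T' hT hT'
        change (𝒞 \ (T ∩ T')).Countable
        rw [Set.sdiff_inter]
        exact Set.Countable.union hT hT' }
  have hf : ∀ T, T ∈ f ↔ (𝒞 \ T).Countable := fun T => Iff.rfl
  have hne : f.NeBot := by
    rw [Filter.neBot_iff]
    intro hbot
    have h1 : (∅ : Set (Finset V)) ∈ f := by rw [hbot]; exact Filter.mem_bot
    rw [hf, Set.sdiff_empty] at h1
    exact hn h1
  let U : Ultrafilter (Finset V) := Ultrafilter.of f
  have hUf : ∀ T, T ∈ f → T ∈ U := fun T hT => Ultrafilter.of_le f hT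
  have hUc : ∀ T, T ∈ U → ¬ (𝒞 ∩ T).Countable := by
    intro T hT hc
    have h1 : Tᶜ ∈ f := by
      rw [hf, Set.sdiff_compl]
      exact hc
    have h2 : Tᶜ ∈ U := hUf _ h1
    exact (Ultrafilter.compl_mem_iff_notMem.1 h2) hT
  have hch : ∀ A ∈ 𝒜, ∃ p : V × ℕ, p.1 ∈ A ∧
      {B : Finset V | ∃ b, B.toList[p.2]? = some b ∧ G.Adj p.1 b} ∈ U := by
    intro A hA
    have h1 : (⋃ p ∈ ((A ×ˢ Finset.range n : Finset (V × ℕ)) : Set (V × ℕ)),
        {B : Finset V | ∃ b, B.toList[p.2]? = some b ∧ G.Adj p.1 b}) ∈ U := by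
      apply hUf
      rw [hf]
      convert Set.countable_empty (α := Finset V)
      rw [Set.sdiff_eq_empty]
      intro B hB
      obtain ⟨a, ha, b, hb, hab⟩ := hcon A hA B hB.1
      obtain ⟨j, hj, hjb⟩ := List.mem_iff_getElem.1 (Finset.mem_toList.2 hb)
      refine Set.mem_biUnion (x := (a, j)) ?_ ⟨b, ?_, hab⟩
      · rw [Finset.mem_coe, Finset.mem_product, Finset.mem_range]
        refine ⟨ha, ?_⟩
        rw [Finset.length_toList, hB.2] at hj
        exact hj
      · change B.toList[j]? = some b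
        rw [List.getElem?_eq_getElem hj, hjb]
    obtain ⟨p, hp, hpU⟩ := (Ultrafilter.finite_biUnion_mem_iff
      (A ×ˢ Finset.range n : Finset (V × ℕ)).finite_toSet).1 h1
    rw [Finset.mem_coe, Finset.mem_product] at hp
    exact ⟨p, hp.1, hpU⟩
  have hAne : Nonempty V := by
    obtain ⟨A, hA1, -⟩ := exists_two hA
    obtain ⟨p, -⟩ := hch A hA1
    exact ⟨p.1⟩
  choose! g hg1 hg2 using hch
  obtain ⟨j, hj⟩ := Pool.Agent.Helper8.KP.pigeon hA (fun A => (g A).2)
  have hinj : Set.InjOn (fun A => (g A).1) 𝒜 := by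
    intro A hA1 A' hA2 hAA
    by_contra hne
    have h1 : (g A).1 = (g A').1 := hAA
    exact Finset.disjoint_left.1 (hAd A hA1 A' hA2 hne) (hg1 A hA1) (h1 ▸ hg1 A' hA2)
  have hS : ¬ ((fun A => (g A).1) '' {A ∈ 𝒜 | (g A).2 = j}).Countable := by
    intro hc
    exact hj (Set.MapsTo.countable_of_injOn (Set.mapsTo_image _ _)
      (hinj.mono (Set.sep_subset _ _)) hc)
  obtain ⟨F, hF1, hF2⟩ := h _ hS
  have hT : (⋂ a ∈ (F : Set V), {B : Finset V | ∃ b, B.toList[j]? = some b ∧ G.Adj a b}) ∈ U := by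
    have h0 : (⋂ a ∈ (F : Set V), {B : Finset V | ∃ b, B.toList[j]? = some b ∧ G.Adj a b}) ∈
        (U : Filter (Finset V)) := by
      rw [Filter.biInter_mem F.finite_toSet]
      intro a ha
      obtain ⟨A, hA1, rfl⟩ := hF1 a ha
      have h2 := hg2 A hA1.1
      rw [hA1.2] at h2
      exact h2
    exact h0
  apply hUc _ hT
  by_cases hFe : F = ∅
  · subst hFe
    have hVc : (Set.univ : Set V).Countable := by
      refine hF2.mono ?_
      intro v _ a ha
      exact absurd ha (Finset.notMem_empty a)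
    exfalso
    exact hS (hVc.mono (Set.subset_univ _))
  obtain ⟨a0, ha0⟩ := Finset.nonempty_iff_ne_empty.2 hFe
  refine Set.MapsTo.countable_of_injOn (f := fun B : Finset V => B.toList[j]?)
    (t := some '' {v : V | ∀ a ∈ F, G.Adj a v}) ?_ ?_ (hF2.image _)
  · rintro B ⟨hB1, hB2⟩
    rw [Set.mem_iInter₂] at hB2
    obtain ⟨b, hb, -⟩ := hB2 a0 ha0
    refine ⟨b, ?_, hb.symm⟩
    intro a ha
    obtain ⟨b', hb', hab'⟩ := hB2 a ha
    rw [hb] at hb'
    obtain rfl := Option.some_injective _ hb'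
    exact hab'
  · rintro B ⟨hB1, hB2⟩ B' ⟨hB1', hB2'⟩ hBB
    rw [Set.mem_iInter₂] at hB2 hB2'
    obtain ⟨b, hb, -⟩ := hB2 a0 ha0
    have hb' : B'.toList[j]? = some b := by
      have : B.toList[j]? = B'.toList[j]? := hBB
      rw [← this]; exact hb
    by_contra hne
    have m1 : b ∈ B := Finset.mem_toList.1 (List.mem_of_getElem? hb)
    have m2 : b ∈ B' := Finset.mem_toList.1 (List.mem_of_getElem? hb')
    exact Finset.disjoint_left.1 (hBd B hB1.1 B' hB1'.1 hne) m1 m2

/-- the comparability graph -/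
def compGraph (T : Type*) [PartialOrder T] : SimpleGraph T where
  Adj a b := a ≠ b ∧ (a ≤ b ∨ b ≤ a)
  symm := ⟨fun _ _ h => ⟨h.1.symm, h.2.symm⟩⟩
  loopless := ⟨fun _ h => h.1 rfl⟩

theorem compGraph_indep {T : Type*} [PartialOrder T] {S : Set T} :
    (compGraph T).IsIndepSet S ↔ IsAntichain (· ≤ ·) S := by
  constructor
  · intro h a ha b hb hab hle
    exact h ha hb hab ⟨hab, Or.inl hle⟩
  · intro h a ha b hb hab hadj
    rcases hadj.2 with h1 | h1
    · exact h ha hb hab h1
    · exact h hb ha hab.symm h1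

/-- the comparability graph of a tree like order without uncountable chains is rectangular -/
theorem rectangular_comp {T : Type*} [PartialOrder T]
    (h1 : ∀ t : T, IsChain (· ≤ ·) (Set.Iic t))
    (h2 : ∀ C : Set T, IsChain (· ≤ ·) C → C.Countable) : Rectangular (compGraph T) := by
  classical
  apply rectangular_of_common
  intro S hS
  have h3 : ¬ IsChain (· ≤ ·) S := fun h => hS (h2 S h)
  have h4 : ∃ a ∈ S, ∃ b ∈ S, a ≠ b ∧ ¬ a ≤ b ∧ ¬ b ≤ a := by
    by_contra hcon
    push Not at hcon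
    apply h3
    intro a ha b hb hab
    by_cases hle : a ≤ b
    · exact Or.inl hle
    · exact Or.inr (hcon a ha b hb hab hle)
  obtain ⟨a, ha, b, hb, hab, hn1, hn2⟩ := h4
  refine ⟨{a, b}, ?_, ?_⟩
  · intro x hx
    rw [Finset.mem_insert, Finset.mem_singleton] at hx
    rcases hx with rfl | rfl
    · exact ha
    · exact hb
  · refine ((h2 _ (h1 a)).union (h2 _ (h1 b))).mono ?_
    intro v hv
    have hva : a ≠ v ∧ (a ≤ v ∨ v ≤ a) := hv a (by simp)
    have hvb : b ≠ v ∧ (b ≤ v ∨ v ≤ b) := hv b (by simp)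
    rcases hva.2 with h | h
    · rcases hvb.2 with h' | h'
      · rcases h1 v h h' hab with h5 | h5
        · exact absurd h5 hn1
        · exact absurd h5 hn2
      · exact Or.inr h'
    · exact Or.inl h

/-- in an uncountable linear order with countable initial segments countable sets are bounded -/
theorem exists_gt' {V : Type*} [LinearOrder V] (hV : ¬ (Set.univ : Set V).Countable)
    (hc : ∀ a : V, (Set.Iio a).Countable) {S : Set V} (hS : S.Countable) :
    ∃ γ, ∀ s ∈ S, s < γ := by
  by_contra hcon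
  push Not at hcon
  apply hV
  have h1 : (⋃ s ∈ S, (Set.Iio s ∪ {s})).Countable :=
    hS.biUnion fun s _ => (hc s).union (Set.countable_singleton s)
  refine h1.mono ?_
  intro v _
  obtain ⟨s, hs, hvs⟩ := hcon v
  refine Set.mem_biUnion hs ?_
  rcases hvs.lt_or_eq with h | h
  · exact Or.inl h
  · exact Or.inr h

/-- Hajnal-Mate graphs are rectangular -/
theorem rectangular_hm {V : Type*} [LinearOrder V] (hc : ∀ a : V, (Set.Iio a).Countable)
    (G : SimpleGraph V) (h : ∀ u v : V, u < v → {w : V | w < u ∧ G.Adj w v}.Finite) :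
    Rectangular G := by
  classical
  intro 𝒜 ℬ hA hB hAd hBd
  have hV : ¬ (Set.univ : Set V).Countable := by
    intro hV
    apply hA
    have : Countable V := Set.countable_univ_iff.1 hV
    exact Set.to_countable 𝒜
  have hAi : 𝒜.Infinite := fun hfin => hA hfin.countable
  obtain ⟨s, hs⟩ : ∃ s : ℕ → Finset V, Function.Injective s ∧ ∀ n, s n ∈ 𝒜 :=
    ⟨fun n => (hAi.natEmbedding 𝒜 n : Finset V), fun m n hmn =>
      (hAi.natEmbedding 𝒜).injective (Subtype.ext hmn), fun n => (hAi.natEmbedding 𝒜 n).2⟩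
  obtain ⟨γ, hγ⟩ := exists_gt' hV hc (S := ⋃ n, (s n : Set V))
    (Set.countable_iUnion fun n => (s n).countable_toSet)
  -- a member of `ℬ` above `γ`
  obtain ⟨B, hB1, hB2⟩ : ∃ B ∈ ℬ, ∀ b ∈ B, γ < b := by
    by_contra hcon
    push Not at hcon
    have hne : Nonempty V := ⟨γ⟩
    choose! k hk1 hk2 using hcon
    apply hB
    refine Set.MapsTo.countable_of_injOn (f := k) (t := Set.Iio γ ∪ {γ}) ?_ ?_
      ((hc γ).union (Set.countable_singleton γ))
    · intro B hB1
      rcases (hk2 B hB1).lt_or_eq with h | h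
      · exact Or.inl h
      · exact Or.inr h
    · intro B hB1 B' hB1' hkk
      by_contra hne
      exact Finset.disjoint_left.1 (hBd B hB1 B' hB1' hne) (hk1 B hB1) (hkk ▸ hk1 B' hB1')
  have hfin : (⋃ b ∈ (B : Set V), {w : V | w < γ ∧ G.Adj w b}).Finite :=
    B.finite_toSet.biUnion fun b hb => h γ b (hB2 b hb)
  -- only finitely many `s n` meet this set
  have hbad : ∃ n, ∀ a ∈ s n, a ∉ (⋃ b ∈ (B : Set V), {w : V | w < γ ∧ G.Adj w b}) := by
    by_contra hcon
    push Not at hcon
    choose c hc1 hc2 using hcon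
    have hcinj : Function.Injective c := by
      intro m n hmn
      by_contra hne
      have h1 : s m ≠ s n := fun h => hne (hs.1 h)
      exact Finset.disjoint_left.1 (hAd _ (hs.2 m) _ (hs.2 n) h1) (hc1 m) (hmn ▸ hc1 n)
    exact Set.infinite_range_of_injective hcinj (hfin.subset (by
      rintro _ ⟨n, rfl⟩
      exact hc2 n))
  obtain ⟨n, hn⟩ := hbad
  refine ⟨s n, hs.2 n, B, hB1, fun a ha b hb hab => hn a ha ?_⟩
  exact Set.mem_biUnion (by exact hb) ⟨hγ a (Set.mem_iUnion.2 ⟨n, ha⟩), hab⟩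

end Pool.Agent.Helper87.RG
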