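import Mathlib
import Pool.Agent.Helper87.RG.Core
import Pool.Agent.Helper8.KP.Main

set_option autoImplicit false

/-!
# Countably many independent sets contain all finite independent sets
-/

namespace Pool.Agent.Helper87.RG

open Set
open Pool.Agent.Helper8.KP

theorem cover_omega (H : Star) {Ω : Type} [LinearOrder Ω] [WellFoundedLT Ω] [Uncountable Ω]
    (hc : ∀ a : Ω, (Set.Iio a).Countable) (hcard : Cardinal.mk Ω ≤ Cardinal.continuum)
    (G : SimpleGraph Ω) (hG : Rectangular G) :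
    ∃ W : ℕ → Set Ω, (∀ n, ∀ a ∈ W n, ∀ b ∈ W n, ¬ G.Adj a b) ∧
      ∀ F : Finset Ω, (∀ a ∈ F, ∀ b ∈ F, ¬ G.Adj a b) → ∃ n, (F : Set Ω) ⊆ W n := by
  classical
  obtain ⟨e, he, het⟩ := exists_coh hc
  obtain ⟨z, hz⟩ : ∃ z : Ω → Set ℕ, Function.Injective z := by
    have h1 : Cardinal.mk Ω ≤ Cardinal.mk (Set ℕ) := by
      rw [Cardinal.mk_set, Cardinal.mk_nat, Cardinal.two_power_aleph0]
      exact hcard
    obtain ⟨f⟩ := (Cardinal.le_def _ _).1 h1
    exact ⟨f, f.injective⟩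
  let y : Ω → ℕ → Finset (ℕ × ℕ) × Bool := fun δ k =>
    ((Finset.range (k + 1) ×ˢ Finset.range (k + 1)).filter (fun p => NP G e δ p.1 p.2),
      decide (k ∈ z δ))
  have hy : Function.Injective y := by
    intro δ ε h
    apply hz
    ext k
    have h1 : decide (k ∈ z δ) = decide (k ∈ z ε) := congrArg Prod.snd (congrFun h k)
    exact decide_eq_decide.1 h1
  have hpat : ∀ δ ε i j, (∀ k, k ≤ i ∨ k ≤ j → y δ k = y ε k) → NP G e δ i j → NP G e ε i j := by
    intro δ ε i j h hn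
    have h1 : ((Finset.range (max i j + 1) ×ˢ Finset.range (max i j + 1)).filter
        (fun p => NP G e δ p.1 p.2)) = ((Finset.range (max i j + 1) ×ˢ
        Finset.range (max i j + 1)).filter (fun p => NP G e ε p.1 p.2)) :=
      congrArg Prod.fst (h (max i j) (by
        rcases le_total i j with hij | hij
        · right; rw [max_eq_right hij]
        · left; rw [max_eq_left hij]))
    have h2 : (i, j) ∈ ((Finset.range (max i j + 1) ×ˢ Finset.range (max i j + 1)).filter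
        (fun p => NP G e δ p.1 p.2)) := by
      rw [Finset.mem_filter, Finset.mem_product, Finset.mem_range, Finset.mem_range]
      exact ⟨⟨Nat.lt_succ_of_le (le_max_left _ _), Nat.lt_succ_of_le (le_max_right _ _)⟩, hn⟩
    rw [h1] at h2
    exact (Finset.mem_filter.1 h2).2
  obtain ⟨X, hX, hR⟩ := exists_clique H (Rel G e y) (fun 𝒜 m h1 h2 h3 h4 h5 =>
    core hc hG he het hy hpat 𝒜 m h1 h2 h3 h4 h5)
  have hXu : ∀ F : Finset Ω, ∃ δ ∈ X, ∀ a ∈ F, a < δ := by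
    intro F
    obtain ⟨γ, hγ⟩ := exists_gt_of_countable hc F.countable_toSet
    by_contra hcon
    push Not at hcon
    apply hX
    refine Set.Countable.mono (s₂ := Set.Iio γ) ?_ (hc γ)
    intro δ hδ
    obtain ⟨a, ha, haδ⟩ := hcon δ hδ
    exact haδ.trans_lt (hγ a ha)
  let W' : Finset ℕ × List (Finset (ℕ × ℕ) × Bool) → Set Ω := fun p =>
    {a | ∃ δ ∈ X, node y (p.1.sup id + 1) δ = p.2 ∧ (∀ i ∈ p.1, ∀ j ∈ p.1, NP G e δ i j) ∧
      a < δ ∧ e δ a ∈ p.1}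
  obtain ⟨g, hg⟩ := exists_surjective_nat (Finset ℕ × List (Finset (ℕ × ℕ) × Bool))
  refine ⟨fun n => W' (g n), ?_, ?_⟩
  · rintro n a ⟨δ, hδ, h1, h2, h3, h4⟩ b ⟨ε, hε, h1', h2', h3', h4'⟩
    by_cases hde : δ = ε
    · subst hde
      obtain ⟨a', b', ha', hb', hab⟩ := h2 _ h4 _ h4'
      have e1 : a' = a := he _ ha'.1 h3 ha'.2
      have e2 : b' = b := he _ hb'.1 h3' hb'.2
      rw [e1, e2] at hab
      exact hab
    · refine hR δ hδ ε hε hde _ _ a b ⟨h3, rfl⟩ ⟨h3', rfl⟩ (h2 _ h4 _ h4') ?_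
      intro k hk
      have h5 : e δ a ≤ (g n).1.sup id := Finset.le_sup (f := id) h4
      have h6 : e ε b ≤ (g n).1.sup id := Finset.le_sup (f := id) h4'
      exact node_eq.1 (h1.trans h1'.symm) k (by rcases hk with hk | hk <;> omega)
  · intro F hF
    obtain ⟨δ, hδ, hδF⟩ := hXu F
    obtain ⟨n, hn⟩ := hg (F.image (e δ), node y ((F.image (e δ)).sup id + 1) δ)
    refine ⟨n, fun a ha => ?_⟩
    show a ∈ W' (g n)
    rw [hn]
    refine ⟨δ, hδ, rfl, ?_, hδF a ha, Finset.mem_image_of_mem _ ha⟩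
    intro i hi j hj
    obtain ⟨a, ha, rfl⟩ := Finset.mem_image.1 hi
    obtain ⟨b, hb, rfl⟩ := Finset.mem_image.1 hj
    exact ⟨a, b, ⟨hδF a ha, rfl⟩, ⟨hδF b hb, rfl⟩, hF a ha b hb⟩

universe u

/-- the conclusion for graphs on arbitrary sets of size at most `ℵ₁` -/
theorem cover (H : Star) {V : Type u} (hV : Cardinal.mk V ≤ Cardinal.aleph 1)
    (G : SimpleGraph V) (hG : Rectangular G) :
    ∃ W : ℕ → Set V, (∀ n, G.IsIndepSet (W n)) ∧
      ∀ F : Finset V, G.IsIndepSet (F : Set V) → ∃ n, (F : Set V) ⊆ W n := by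
  classical
  by_cases hcv : Countable V
  · obtain ⟨g, hg⟩ := exists_surjective_nat (Finset V)
    refine ⟨fun n => if G.IsIndepSet (g n : Set V) then (g n : Set V) else ∅, fun n => ?_, ?_⟩
    · dsimp only
      split_ifs with h
      · exact h
      · exact Set.pairwise_empty _
    · intro F hF
      obtain ⟨n, rfl⟩ := hg F
      exact ⟨n, (if_pos hF).ge⟩
  obtain ⟨Ω, i1, i2, i3, hc, hΩ⟩ := exists_omega1
  have hcard : Cardinal.mk Ω ≤ Cardinal.continuum := by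
    rw [hΩ]; exact Cardinal.aleph_one_le_continuum
  have hV1 : Cardinal.mk V = Cardinal.aleph 1 := by
    refine le_antisymm hV ?_
    rw [not_countable_iff, ← Cardinal.aleph0_lt_mk_iff] at hcv
    rw [← Cardinal.succ_aleph0]
    exact Order.succ_le_of_lt hcv
  obtain ⟨φ⟩ : Nonempty (Ω ≃ V) := by
    rw [← Cardinal.lift_mk_eq', hΩ, hV1, Cardinal.lift_aleph, Cardinal.lift_aleph]
    simp
  have hG' : Rectangular (G.comap φ) := by
    intro 𝒜 ℬ hA hB hAd hBd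
    have hinj : Function.Injective (Finset.map φ.toEmbedding) := Finset.map_injective _
    have hunc : ∀ 𝒜 : Set (Finset Ω), ¬ 𝒜.Countable →
        ¬ ((Finset.map φ.toEmbedding) '' 𝒜).Countable := by
      intro 𝒜 h1 h2
      exact h1 (Set.MapsTo.countable_of_injOn (Set.mapsTo_image _ _) hinj.injOn h2)
    have hdj : ∀ 𝒜 : Set (Finset Ω), (∀ A ∈ 𝒜, ∀ B ∈ 𝒜, A ≠ B → Disjoint A B) →
        ∀ A ∈ (Finset.map φ.toEmbedding) '' 𝒜, ∀ B ∈ (Finset.map φ.toEmbedding) '' 𝒜,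
          A ≠ B → Disjoint A B := by
      rintro 𝒜 h _ ⟨A, hA, rfl⟩ _ ⟨B, hB, rfl⟩ hAB
      rw [Finset.disjoint_map]
      exact h A hA B hB fun h' => hAB (by rw [h'])
    obtain ⟨_, ⟨A, hA1, rfl⟩, _, ⟨B, hB1, rfl⟩, hAB⟩ := hG _ _ (hunc 𝒜 hA) (hunc ℬ hB)
      (hdj 𝒜 hAd) (hdj ℬ hBd)
    refine ⟨A, hA1, B, hB1, fun a ha b hb h => ?_⟩
    exact hAB (φ a) (Finset.mem_map_of_mem _ ha) (φ b) (Finset.mem_map_of_mem _ hb) h
  obtain ⟨W, hW1, hW2⟩ := cover_omega H hc hcard (G.comap φ) hG'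
  refine ⟨fun n => φ '' W n, ?_, ?_⟩
  · rintro n _ ⟨a, ha, rfl⟩ _ ⟨b, hb, rfl⟩ _
    exact hW1 n a ha b hb
  · intro F hF
    obtain ⟨n, hn⟩ := hW2 (F.map φ.symm.toEmbedding) (by
      intro a ha b hb hab
      obtain ⟨a', ha', rfl⟩ := Finset.mem_map.1 ha
      obtain ⟨b', hb', rfl⟩ := Finset.mem_map.1 hb
      have h1 : G.Adj (φ (φ.symm a')) (φ (φ.symm b')) := hab
      rw [φ.apply_symm_apply, φ.apply_symm_apply] at h1
      exact hF ha' hb' h1.ne h1)
    refine ⟨n, fun a ha => ⟨φ.symm a, hn ?_, φ.apply_symm_apply a⟩⟩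
    exact Finset.mem_map_of_mem _ ha

end Pool.Agent.Helper87.RG
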