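import Mathlib
import Pool.Agent.Helper8.KP.Main
import Pool.Agent.Helper87.RG.Core

set_option autoImplicit false

/-!
# From countable sets to sets of size `ℵ₁`: the chain condition
-/

namespace Pool.Agent.Helper87.RG

open Set
open Pool.Agent.Helper8.KP

theorem Compat.symm' {P : Type} [PartialOrder P] {p q : P} (h : Compat p q) : Compat q p := by
  obtain ⟨r, h1, h2⟩ := h
  exact ⟨r, h2, h1⟩

theorem Compat.mono' {P : Type} [PartialOrder P] {p q p' q' : P} (h : Compat p q) (hp : p ≤ p')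
    (hq : q ≤ q') : Compat p' q' := by
  obtain ⟨r, h1, h2⟩ := h
  exact ⟨r, h1.trans hp, h2.trans hq⟩

/-- property K for families -/
theorem linked_family {P : Type} [PartialOrder P] (hK : PropertyK P) {I : Type*} {A : Set I}
    (hA : ¬ A.Countable) (f : I → P) :
    ∃ B ⊆ A, ¬ B.Countable ∧ ∀ a ∈ B, ∀ b ∈ B, Compat (f a) (f b) := by
  by_cases hc : (f '' A).Countable
  · obtain ⟨j, hj, hjc⟩ := pigeon_set hA f hc (fun i hi => Set.mem_image_of_mem f hi)
    refine ⟨{i ∈ A | f i = j}, Set.sep_subset _ _, hjc, ?_⟩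
    rintro a ⟨_, ha⟩ b ⟨_, hb⟩
    rw [ha, hb]
    exact ⟨j, le_rfl, le_rfl⟩
  · obtain ⟨C, hCA, hCc, hC⟩ := hK _ hc
    refine ⟨{i ∈ A | f i ∈ C}, Set.sep_subset _ _, ?_, ?_⟩
    · intro h
      apply hCc
      refine (h.image f).mono ?_
      intro c hcC
      obtain ⟨i, hi, rfl⟩ := hCA hcC
      exact ⟨i, ⟨hi, hcC⟩, rfl⟩
    · rintro a ⟨_, ha⟩ b ⟨_, hb⟩
      exact hC _ ha _ hb

/-- property K for finitely many families -/
theorem linked_families {P : Type} [PartialOrder P] (hK : PropertyK P) {I J : Type*} [Finite J]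
    {A : Set I} (hA : ¬ A.Countable) (z : I → J → P) :
    ∃ B ⊆ A, ¬ B.Countable ∧ ∀ a ∈ B, ∀ b ∈ B, ∀ j, Compat (z a j) (z b j) := by
  classical
  have key : ∀ s : Finset J, ∃ B ⊆ A, ¬ B.Countable ∧
      ∀ a ∈ B, ∀ b ∈ B, ∀ j ∈ s, Compat (z a j) (z b j) := by
    intro s
    induction s using Finset.induction_on with
    | empty => exact ⟨A, Set.Subset.rfl, hA, fun a _ b _ j hj => absurd hj (Finset.notMem_empty j)⟩
    | insert j s _ ih =>
      obtain ⟨B, hBA, hBc, hB⟩ := ih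
      obtain ⟨B', hB', hBc', hBl⟩ := linked_family hK hBc (fun i => z i j)
      refine ⟨B', hB'.trans hBA, hBc', ?_⟩
      intro a ha b hb k hk
      rcases Finset.mem_insert.1 hk with rfl | hk
      · exact hBl a ha b hb
      · exact hB a (hB' ha) b (hB' hb) k hk
  have := Fintype.ofFinite J
  obtain ⟨B, h1, h2, h3⟩ := key Finset.univ
  exact ⟨B, h1, h2, fun a ha b hb j => h3 a ha b hb j (Finset.mem_univ j)⟩

/-- the relation of the graph poset -/
def RelS {Ω P C : Type} [PartialOrder P] (x : Ω → ℕ → P) (y : Ω → ℕ → C) (δ ε : Ω) : Prop :=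
  ∀ i, (∀ k ≤ i, y δ k = y ε k) → Compat (x δ i) (x ε i)

theorem relS_symm {Ω P C : Type} [PartialOrder P] {x : Ω → ℕ → P} {y : Ω → ℕ → C} {δ ε : Ω}
    (h : RelS x y δ ε) : RelS x y ε δ :=
  fun i hi => Compat.symm' (h i fun k hk => (hi k hk).symm)

/-- the finite lists of elements of `E` with the same colours can be matched -/
def Tame {Ω P : Type} [PartialOrder P] (E : Set P) (τ : Ω → P → ℕ) : Prop :=
  ∀ (c : Ω → ℕ) (p q : Ω → List P),
    (∀ η, List.Forall₂ (fun u v => u ∈ E ∧ v ∈ E ∧ τ η u = τ η v) (p η) (q η)) →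
    ∃ ξ η, c ξ = c η ∧ List.Forall₂ Compat (p ξ) (q η)

theorem gcore {P : Type} [PartialOrder P] (hK : PropertyK P) {Ω : Type} [LinearOrder Ω]
    [Uncountable Ω] (hc : ∀ a : Ω, (Set.Iio a).Countable) {x : Ω → ℕ → P} {E : Set P}
    (hx : ∀ δ i, x δ i ∈ E) {τ : Ω → P → ℕ} (hτ : Tame E τ)
    {C : Type} [Countable C] {y : Ω → ℕ → C} (hy : Function.Injective y)
    (hcode : ∀ η, ∃ T : Ω → ℕ × List ℕ, ∀ δ ε, η < δ → η < ε → T δ = T ε →
      ∀ i, (∀ k ≤ i, y δ k = y ε k) → τ η (x δ i) = τ η (x ε i))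
    (𝒜 : Set (Finset Ω)) (m : ℕ) (hA : ¬ 𝒜.Countable) (hne : ∀ F ∈ 𝒜, F.Nonempty)
    (hcard : ∀ F ∈ 𝒜, F.card = m) (hdis : ∀ F ∈ 𝒜, ∀ F' ∈ 𝒜, F ≠ F' → Disjoint F F')
    (hclq : ∀ F ∈ 𝒜, ∀ a ∈ F, ∀ b ∈ F, a ≠ b → RelS x y a b) :
    ∃ F ∈ 𝒜, ∃ F' ∈ 𝒜, F ≠ F' ∧ ∀ a ∈ F, ∀ b ∈ F', RelS x y a b ∧ RelS x y b a := by
  classical
  have hm : 0 < m := by
    obtain ⟨F, hF, _⟩ := exists_two hA
    rw [← hcard F hF]
    exact Finset.card_pos.2 (hne F hF)
  -- enumerations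
  have hf : ∀ F : Finset Ω, ∃ f : Fin m → Ω, F ∈ 𝒜 →
      Function.Injective f ∧ (∀ l, f l ∈ F) ∧ ∀ a ∈ F, ∃ l, f l = a := by
    intro F
    by_cases h : F ∈ 𝒜
    · refine ⟨F.orderEmbOfFin (hcard F h), fun _ => ⟨(F.orderEmbOfFin (hcard F h)).injective,
        fun l => Finset.orderEmbOfFin_mem _ _ _, fun a ha => ?_⟩⟩
      have h1 : a ∈ Set.range (F.orderEmbOfFin (hcard F h)) := by
        rw [Finset.range_orderEmbOfFin]
        exact ha
      exact h1
    · exact ⟨fun _ => Classical.arbitrary Ω, fun h' => absurd h' h⟩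
  choose f hf using hf
  have hf1 : ∀ F ∈ 𝒜, Function.Injective (f F) := fun F hF => (hf F hF).1
  have hf2 : ∀ F ∈ 𝒜, ∀ l, f F l ∈ F := fun F hF => (hf F hF).2.1
  have hf3 : ∀ F ∈ 𝒜, ∀ a ∈ F, ∃ l, f F l = a := fun F hF => (hf F hF).2.2
  -- a level which separates two points
  have hd : ∀ x x' : Ω, ∃ k, x ≠ x' → y x k ≠ y x' k := by
    intro x x'
    by_cases h : x = x'
    · exact ⟨0, fun h' => absurd h h'⟩
    · by_contra hcon
      push Not at hcon
      exact h (hy (funext fun k => (hcon k).2))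
  choose d hd using hd
  have hdn : ∀ x x' N, x ≠ x' → d x x' < N → node y N x ≠ node y N x' := by
    intro x x' N h1 h2 h3
    exact hd x x' h1 (node_eq.1 h3 _ h2)
  -- Step 1: fixed separated nodes
  obtain ⟨Ks, hKs⟩ := pigeon hA (fun F =>
    ((Finset.univ.sup fun l : Fin m => Finset.univ.sup fun l' : Fin m => d (f F l) (f F l') + 1),
      fun l : Fin m => node y (Finset.univ.sup fun l : Fin m => Finset.univ.sup
        fun l' : Fin m => d (f F l) (f F l') + 1) (f F l)))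
  obtain ⟨K, s⟩ := Ks
  set 𝒜1 : Set (Finset Ω) := {F ∈ 𝒜 | (fun F =>
    ((Finset.univ.sup fun l : Fin m => Finset.univ.sup fun l' : Fin m => d (f F l) (f F l') + 1),
      fun l : Fin m => node y (Finset.univ.sup fun l : Fin m => Finset.univ.sup
        fun l' : Fin m => d (f F l) (f F l') + 1) (f F l))) F = (K, s)} with h𝒜1
  have hA1 : ∀ F ∈ 𝒜1, F ∈ 𝒜 := fun F hF => hF.1
  have hK1 : ∀ F ∈ 𝒜1, ∀ l, node y K (f F l) = s l := by
    rintro F ⟨_, hF⟩ l
    obtain ⟨h1, h2⟩ := Prod.mk.inj hF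
    rw [h1] at h2
    exact congrFun h2 l
  have hK2 : ∀ F ∈ 𝒜1, ∀ l l', l ≠ l' → d (f F l) (f F l') < K := by
    rintro F ⟨_, hF⟩ l l' _
    obtain ⟨h1, _⟩ := Prod.mk.inj hF
    have h3 : d (f F l) (f F l') + 1 ≤ Finset.univ.sup fun l' : Fin m => d (f F l) (f F l') + 1 :=
      Finset.le_sup (f := fun l' : Fin m => d (f F l) (f F l') + 1) (Finset.mem_univ l')
    have h4 : (Finset.univ.sup fun l' : Fin m => d (f F l) (f F l') + 1) ≤
        Finset.univ.sup fun l : Fin m => Finset.univ.sup fun l' : Fin m => d (f F l) (f F l') + 1 :=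
      Finset.le_sup (f := fun l : Fin m => Finset.univ.sup fun l' : Fin m =>
        d (f F l) (f F l') + 1) (Finset.mem_univ l)
    omega
  have hs : ∀ l l', l ≠ l' → s l ≠ s l' := by
    intro l l' hll
    obtain ⟨F, hF, _⟩ := exists_two hKs
    rw [← hK1 F hF l, ← hK1 F hF l']
    exact hdn _ _ _ (fun h => hll (hf1 F (hA1 F hF) h)) (hK2 F hF l l' hll)
  -- Step 2: common lower bounds inside a clique, made linked
  have hz : ∀ F : Finset Ω, ∀ j : Fin m × Fin m × Fin K, ∃ r : P,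
      Compat (x (f F j.1) j.2.2) (x (f F j.2.1) j.2.2) →
        r ≤ x (f F j.1) j.2.2 ∧ r ≤ x (f F j.2.1) j.2.2 := by
    intro F j
    by_cases h : Compat (x (f F j.1) j.2.2) (x (f F j.2.1) j.2.2)
    · obtain ⟨r, hr⟩ := h
      exact ⟨r, fun _ => hr⟩
    · exact ⟨x (f F j.1) j.2.2, fun h' => absurd h' h⟩
  choose z hz using hz
  obtain ⟨𝒜2, h21, h2c, h2l⟩ := linked_families hK hKs z
  have hA2 : ∀ F ∈ 𝒜2, F ∈ 𝒜 := fun F hF => hA1 F (h21 hF)
  -- Step 3: pairs with matching types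
  choose T hT using hcode
  have hpair : ∀ η : Ω, ∃ F0 ∈ 𝒜2, ∃ F1 ∈ 𝒜2, F0 ≠ F1 ∧ (∀ a ∈ F0, η < a) ∧ (∀ a ∈ F1, η < a) ∧
      ∀ l, T η (f F0 l) = T η (f F1 l) := by
    intro η
    have h1 : ¬ {F ∈ 𝒜2 | ∀ a ∈ F, η < a}.Countable := by
      intro hcon
      apply h2c
      have h3 : (Set.Iic η).Countable := by
        rw [← Set.Iio_insert]
        exact (hc η).insert η
      have h2 : (⋃ a ∈ Set.Iic η, {F ∈ 𝒜 | a ∈ F}).Countable := by
        refine h3.biUnion fun a _ => Set.Subsingleton.countable ?_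
        intro F hF F' hF'
        by_contra hFF
        exact Finset.disjoint_left.1 (hdis F hF.1 F' hF'.1 hFF) hF.2 hF'.2
      refine (hcon.union h2).mono ?_
      intro F hF
      by_cases h3 : ∀ a ∈ F, η < a
      · exact Or.inl ⟨hF, h3⟩
      · push Not at h3
        obtain ⟨a, ha, haη⟩ := h3
        exact Or.inr (Set.mem_biUnion haη ⟨hA2 F hF, ha⟩)
    obtain ⟨t, ht⟩ := pigeon h1 (fun F => fun l : Fin m => T η (f F l))
    obtain ⟨F0, h0, F1, h1', hne'⟩ := exists_two ht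
    refine ⟨F0, h0.1.1, F1, h1'.1.1, hne', h0.1.2, h1'.1.2, fun l => ?_⟩
    exact (congrFun h0.2 l).trans (congrFun h1'.2 l).symm
  choose F0 hF0 F1 hF1 hF01 hη0 hη1 htr using hpair
  have hne01 : ∀ η l, f (F0 η) l ≠ f (F1 η) l := by
    intro η l h
    refine Finset.disjoint_left.1 (hdis _ (hA2 _ (hF0 η)) _ (hA2 _ (hF1 η)) (hF01 η))
      (hf2 _ (hA2 _ (hF0 η)) l) ?_
    rw [h]
    exact hf2 _ (hA2 _ (hF1 η)) l
  -- Step 4: the level `M`
  have hM : ∀ η, ∃ M, ∀ l, node y M (f (F0 η) l) ≠ node y M (f (F1 η) l) := by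
    intro η
    refine ⟨Finset.univ.sup fun l : Fin m => d (f (F0 η) l) (f (F1 η) l) + 1,
      fun l => hdn _ _ _ (hne01 η l) ?_⟩
    have h3 : d (f (F0 η) l) (f (F1 η) l) + 1 ≤
        Finset.univ.sup fun l : Fin m => d (f (F0 η) l) (f (F1 η) l) + 1 :=
      Finset.le_sup (f := fun l : Fin m => d (f (F0 η) l) (f (F1 η) l) + 1) (Finset.mem_univ l)
    omega
  choose M hMn using hM
  -- Step 5: the lists of the agreeing indices
  obtain ⟨L, hL⟩ : ∃ L : Ω → List (Fin m × ℕ), ∀ η l i, (l, i) ∈ L η ↔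
      i < M η ∧ ∀ k ≤ i, y (f (F0 η) l) k = y (f (F1 η) l) k := by
    refine ⟨fun η => ((List.finRange m) ×ˢ (List.range (M η))).filter
      (fun j => decide (∀ k ≤ j.2, y (f (F0 η) j.1) k = y (f (F1 η) j.1) k)), fun η l i => ?_⟩
    rw [List.mem_filter, List.mem_product, List.mem_range, decide_eq_true_iff]
    exact ⟨fun h => ⟨h.1.2, h.2⟩, fun h => ⟨⟨List.mem_finRange l, h.1⟩, h.2⟩⟩
  obtain ⟨en, hen⟩ : ∃ en : ℕ × (Fin m → List C) × (Fin m → List C) × List (Fin m × ℕ) → ℕ,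
      Function.Injective en := exists_injective_nat _
  -- Step 6: a matched pair
  obtain ⟨ξ, η, hcc, hpq⟩ := hτ (fun η => en (M η, (fun l : Fin m => node y (M η) (f (F0 η) l)),
      (fun l : Fin m => node y (M η) (f (F1 η) l)), L η))
    (fun η => (L η).map fun j => x (f (F0 η) j.1) j.2)
    (fun η => (L η).map fun j => x (f (F1 η) j.1) j.2) (by
      intro η
      rw [List.forall₂_map_left_iff, List.forall₂_map_right_iff, List.forall₂_same]
      rintro ⟨l, i⟩ hj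
      refine ⟨hx _ _, hx _ _, ?_⟩
      exact hT η _ _ (hη0 η _ (hf2 _ (hA2 _ (hF0 η)) l)) (hη1 η _ (hf2 _ (hA2 _ (hF1 η)) l))
        (htr η l) i ((hL η l i).1 hj).2)
  have hcc' := hen hcc
  obtain ⟨eM, e2⟩ := Prod.mk.inj hcc'
  obtain ⟨e0, e3⟩ := Prod.mk.inj e2
  obtain ⟨e1, eL⟩ := Prod.mk.inj e3
  rw [eL, List.forall₂_map_left_iff, List.forall₂_map_right_iff, List.forall₂_same] at hpq
  have hy0 : ∀ l, ∀ k < M η, y (f (F0 ξ) l) k = y (f (F0 η) l) k := by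
    intro l
    have h : node y (M ξ) (f (F0 ξ) l) = node y (M η) (f (F0 η) l) := congrFun e0 l
    rw [eM] at h
    exact node_eq.1 h
  have hn01 : ∀ l, node y (M η) (f (F0 ξ) l) ≠ node y (M η) (f (F1 η) l) := by
    intro l h
    have h2 : node y (M η) (f (F0 ξ) l) = node y (M η) (f (F0 η) l) := node_eq.2 (hy0 l)
    rw [h2] at h
    exact hMn η l h
  -- Step 7: conclusion
  have hcross : ∀ l l', RelS x y (f (F0 ξ) l) (f (F1 η) l') := by
    intro l l' i hag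
    by_cases hll : l = l'
    · subst hll
      have hi : i < M η := by
        by_contra hcon
        push Not at hcon
        apply hn01 l
        exact node_eq.2 fun k hk => hag k (by omega)
      refine hpq (l, i) ((hL η l i).2 ⟨hi, fun k hk => ?_⟩)
      rw [← hy0 l k (by omega)]
      exact hag k hk
    · have hn0 : node y K (f (F0 ξ) l) = s l := hK1 _ (h21 (hF0 ξ)) l
      have hn0' : node y K (f (F0 ξ) l') = s l' := hK1 _ (h21 (hF0 ξ)) l'
      have hn1 : node y K (f (F1 η) l) = s l := hK1 _ (h21 (hF1 η)) l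
      have hn1' : node y K (f (F1 η) l') = s l' := hK1 _ (h21 (hF1 η)) l'
      have hi : i < K := by
        by_contra hcon
        push Not at hcon
        apply hs l l' hll
        rw [← hn0, ← hn1']
        exact node_eq.2 fun k hk => hag k (by omega)
      have e0 : ∀ k < K, y (f (F0 ξ) l) k = y (f (F1 η) l) k := node_eq.1 (hn0.trans hn1.symm)
      have e1 : ∀ k < K, y (f (F0 ξ) l') k = y (f (F1 η) l') k :=
        node_eq.1 (hn0'.trans hn1'.symm)
      have c0 : Compat (x (f (F0 ξ) l) i) (x (f (F0 ξ) l') i) := by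
        refine hclq _ (hA2 _ (hF0 ξ)) _ (hf2 _ (hA2 _ (hF0 ξ)) l) _ (hf2 _ (hA2 _ (hF0 ξ)) l')
          (fun h => hll (hf1 _ (hA2 _ (hF0 ξ)) h)) i fun k hk => ?_
        rw [e1 k (by omega)]
        exact hag k hk
      have c1 : Compat (x (f (F1 η) l) i) (x (f (F1 η) l') i) := by
        refine hclq _ (hA2 _ (hF1 η)) _ (hf2 _ (hA2 _ (hF1 η)) l) _ (hf2 _ (hA2 _ (hF1 η)) l')
          (fun h => hll (hf1 _ (hA2 _ (hF1 η)) h)) i fun k hk => ?_
        rw [← e0 k (by omega)]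
        exact hag k hk
      have h1 := h2l _ (hF0 ξ) _ (hF1 η) (l, l', ⟨i, hi⟩)
      exact Compat.mono' h1 (hz (F0 ξ) (l, l', ⟨i, hi⟩) c0).1 (hz (F1 η) (l, l', ⟨i, hi⟩) c1).2
  refine ⟨F0 ξ, hA2 _ (hF0 ξ), F1 η, hA2 _ (hF1 η), ?_, ?_⟩
  · intro h
    have l0 : Fin m := ⟨0, hm⟩
    apply hn01 l0
    rw [h]
  · intro a ha b hb
    obtain ⟨l, rfl⟩ := hf3 _ (hA2 _ (hF0 ξ)) a ha
    obtain ⟨l', rfl⟩ := hf3 _ (hA2 _ (hF1 η)) b hb
    exact ⟨hcross l l', relS_symm (hcross l l')⟩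

end Pool.Agent.Helper87.RG
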