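import Mathlib
import Pool.Agent.Helper87.RG.GCore

set_option autoImplicit false

/-!
# From countable sets to sets of size `ℵ₁`
-/

namespace Pool.Agent.Helper87.RG

open Set
open Pool.Agent.Helper8.KP

theorem sigmaLinkedOver_of {P : Type} [PartialOrder P] {E : Set P} (h : SigmaLinked E)
    (A : Set P) : SigmaLinkedOver E A := by
  obtain ⟨W, h1, h2⟩ := h
  refine ⟨W, h1, fun n p hp q hq => ?_⟩
  obtain ⟨r, hr1, hr2⟩ := h2 n p hp q hq
  exact ⟨r, hr1, fun a _ ha => Compat.mono' ha le_rfl hr2⟩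

theorem sigmaLinked_of_tame (H : Star) {P : Type} [PartialOrder P] (hP : CCC P) {E : Set P}
    {Ω : Type} [LinearOrder Ω] [WellFoundedLT Ω] [Uncountable Ω]
    (hc : ∀ a : Ω, (Set.Iio a).Countable) (hcard : Cardinal.mk Ω ≤ Cardinal.continuum)
    (a : Ω → P) (haE : ∀ ξ, a ξ ∈ E) (haS : ∀ p ∈ E, ∃ ξ, a ξ = p)
    (τ : Ω → P → ℕ) (hτ : Tame E τ) : SigmaLinked E := by
  classical
  have hneΩ : Nonempty Ω := inferInstance
  obtain ⟨p0, hp0⟩ : ∃ p0, p0 ∈ E := ⟨_, haE (Classical.arbitrary Ω)⟩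
  have he : ∀ δ : Ω, ∃ f : Ω → ℕ, Set.InjOn f (Set.Iio δ) := fun δ =>
    Set.countable_iff_exists_injOn.1 (hc δ)
  choose e he using he
  -- the readings
  let x : Ω → ℕ → P := fun δ i => if h : ∃ ξ, ξ < δ ∧ e δ ξ = i then a h.choose else p0
  have hxa : ∀ δ ξ, ξ < δ → x δ (e δ ξ) = a ξ := by
    intro δ ξ hξ
    have h : ∃ ξ', ξ' < δ ∧ e δ ξ' = e δ ξ := ⟨ξ, hξ, rfl⟩
    have h1 : h.choose = ξ := he δ h.choose_spec.1 hξ h.choose_spec.2
    simp only [x]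
    rw [dif_pos h, h1]
  have hxE : ∀ δ i, x δ i ∈ E := by
    intro δ i
    simp only [x]
    split_ifs with h
    · exact haE _
    · exact hp0
  obtain ⟨z, hz⟩ : ∃ z : Ω → Set ℕ, Function.Injective z := by
    have h1 : Cardinal.mk Ω ≤ Cardinal.mk (Set ℕ) := by
      rw [Cardinal.mk_set, Cardinal.mk_nat, Cardinal.two_power_aleph0]
      exact hcard
    obtain ⟨f⟩ := (Cardinal.le_def _ _).1 h1
    exact ⟨f, f.injective⟩
  let cd : Ω → ℕ → ℕ → Option ℕ := fun δ i j =>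
    if h : ∃ η, η < δ ∧ e δ η = j then some (τ h.choose (x δ i)) else none
  have hcd : ∀ δ η i, η < δ → cd δ i (e δ η) = some (τ η (x δ i)) := by
    intro δ η i hη
    have h : ∃ ξ', ξ' < δ ∧ e δ ξ' = e δ η := ⟨η, hη, rfl⟩
    have h1 : h.choose = η := he δ h.choose_spec.1 hη h.choose_spec.2
    simp only [cd]
    rw [dif_pos h, h1]
  let y : Ω → ℕ → List (List (Option ℕ)) × Bool := fun δ n =>
    ((List.range (n + 1)).map (fun i => (List.range (n + 1)).map (fun j => cd δ i j)),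
      decide (n ∈ z δ))
  have hy : Function.Injective y := by
    intro δ ε h
    apply hz
    ext k
    have h1 : decide (k ∈ z δ) = decide (k ∈ z ε) := congrArg Prod.snd (congrFun h k)
    exact decide_eq_decide.1 h1
  have hycd : ∀ δ ε n i j, y δ n = y ε n → i ≤ n → j ≤ n → cd δ i j = cd ε i j := by
    intro δ ε n i j h hi hj
    have h1 := congrArg Prod.fst h
    have h2 := (List.map_inj_left.1 h1) i (List.mem_range.2 (by omega))
    exact (List.map_inj_left.1 h2) j (List.mem_range.2 (by omega))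
  have hcode : ∀ η, ∃ T : Ω → ℕ × List ℕ, ∀ δ ε, η < δ → η < ε → T δ = T ε →
      ∀ i, (∀ k ≤ i, y δ k = y ε k) → τ η (x δ i) = τ η (x ε i) := by
    intro η
    refine ⟨fun δ => (e δ η, (List.range (e δ η)).map fun i => τ η (x δ i)), ?_⟩
    intro δ ε hδ hε hT i hag
    obtain ⟨h1, h2⟩ := Prod.mk.inj hT
    rcases lt_or_ge i (e δ η) with hi | hi
    · rw [← h1] at h2
      exact (List.map_inj_left.1 h2) i (List.mem_range.2 hi)
    · have h3 := hycd δ ε i i (e δ η) (hag i le_rfl) le_rfl hi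
      rw [hcd δ η i hδ, h1, hcd ε η i hε] at h3
      exact Option.some_injective _ h3
  have hK : PropertyK P := H P hP
  obtain ⟨X, hX, hR⟩ := exists_clique H (RelS x y) (fun 𝒜 m h1 h2 h3 h4 h5 =>
    gcore hK hc hxE hτ hy hcode 𝒜 m h1 h2 h3 h4 h5)
  obtain ⟨g, hg⟩ := exists_surjective_nat (ℕ × List (List (List (Option ℕ)) × Bool))
  refine ⟨fun n => {p | ∃ δ ∈ X, x δ (g n).1 = p ∧ node y ((g n).1 + 1) δ = (g n).2}, ?_, ?_⟩
  · intro p hp
    obtain ⟨ξ, rfl⟩ := haS p hp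
    obtain ⟨δ, hδ, hξ⟩ : ∃ δ ∈ X, ξ < δ := by
      by_contra hcon
      push Not at hcon
      apply hX
      have h3 : (Set.Iic ξ).Countable := by
        rw [← Set.Iio_insert]
        exact (hc ξ).insert ξ
      exact h3.mono hcon
    obtain ⟨n, hn⟩ := hg (e δ ξ, node y (e δ ξ + 1) δ)
    rw [Set.mem_iUnion]
    refine ⟨n, δ, hδ, ?_, ?_⟩
    · rw [hn]
      exact hxa δ ξ hξ
    · rw [hn]
  · rintro n p ⟨δ, hδ, rfl, h1⟩ q ⟨ε, hε, rfl, h2⟩
    by_cases hδε : δ = ε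
    · subst hδε
      exact ⟨_, le_rfl, le_rfl⟩
    · refine hR δ hδ ε hε hδε _ fun k hk => ?_
      exact node_eq.1 (h1.trans h2.symm) k (by omega)

theorem tame_of_local {P : Type} [PartialOrder P] (hK : PropertyK P) {E : Set P}
    {Ω : Type} [LinearOrder Ω] [WellFoundedLT Ω] [Uncountable Ω]
    (hc : ∀ a : Ω, (Set.Iio a).Countable)
    (a : Ω → P) (haS : ∀ p ∈ E, ∃ ξ, a ξ = p) (τ : Ω → P → ℕ)
    (hτ : ∀ η, ∀ p ∈ E, ∀ q ∈ E, τ η p = τ η q →
      ∃ p' ≤ p, ∀ ξ < η, Compat (a ξ) p' → Compat (a ξ) q) : Tame E τ := by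
  classical
  intro c p q hpq
  have hneΩ : Nonempty Ω := inferInstance
  have huniv : ¬ (Set.univ : Set Ω).Countable := by
    rw [Set.countable_univ_iff, not_countable_iff]
    infer_instance
  obtain ⟨⟨c0, n⟩, hS⟩ := pigeon huniv (fun η => (c η, (p η).length))
  set S : Set Ω := {η ∈ (Set.univ : Set Ω) | (fun η => (c η, (p η).length)) η = (c0, n)} with hSdef
  have hSc : ∀ η ∈ S, c η = c0 := fun η h => (Prod.mk.inj h.2).1
  have hSn : ∀ η ∈ S, (p η).length = n := fun η h => (Prod.mk.inj h.2).2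
  have p0 : P := a (Classical.arbitrary Ω)
  have hlen : ∀ η, (p η).length = (q η).length := fun η => (hpq η).length_eq
  have hget : ∀ η, ∀ k, k < (p η).length → (p η).getD k p0 ∈ E ∧ (q η).getD k p0 ∈ E ∧
      τ η ((p η).getD k p0) = τ η ((q η).getD k p0) := by
    intro η k hk
    have hk' : k < (q η).length := hlen η ▸ hk
    have h1 := (List.forall₂_iff_get.1 (hpq η)).2 k hk hk'
    rw [List.getD_eq_getElem _ _ hk, List.getD_eq_getElem _ _ hk']
    exact h1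
  have hw : ∀ η k, ∃ p' : P, k < (p η).length → p' ≤ (p η).getD k p0 ∧
      ∀ ξ < η, Compat (a ξ) p' → Compat (a ξ) ((q η).getD k p0) := by
    intro η k
    by_cases hk : k < (p η).length
    · obtain ⟨h1, h2, h3⟩ := hget η k hk
      obtain ⟨p', h4, h5⟩ := hτ η _ h1 _ h2 h3
      exact ⟨p', fun _ => ⟨h4, h5⟩⟩
    · exact ⟨p0, fun h => absurd h hk⟩
  choose w hw using hw
  obtain ⟨S', hS'S, hS'c, hS'⟩ := linked_families hK hS (fun η (k : Fin n) => w η k)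
  obtain ⟨ξ, hξ, -⟩ := exists_two hS'c
  have hz : ∀ k : Fin n, ∃ ζ, a ζ = (p ξ).getD k p0 := fun k =>
    haS _ (hget ξ k (by rw [hSn ξ (hS'S hξ)]; exact k.2)).1
  choose ζ hζ using hz
  obtain ⟨η, hη, hζη⟩ : ∃ η ∈ S', ∀ k, ζ k < η := by
    by_contra hcon
    push Not at hcon
    apply hS'c
    have h1 : (⋃ k : Fin n, Set.Iic (ζ k)).Countable := by
      refine Set.countable_iUnion fun k => ?_
      rw [← Set.Iio_insert]
      exact (hc _).insert _
    refine h1.mono ?_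
    intro η hη
    obtain ⟨k, hk⟩ := hcon η hη
    exact Set.mem_iUnion.2 ⟨k, hk⟩
  refine ⟨ξ, η, (hSc ξ (hS'S hξ)).trans (hSc η (hS'S hη)).symm, ?_⟩
  have hlp : (p ξ).length = n := hSn ξ (hS'S hξ)
  have hlq : (q η).length = n := (hlen η).symm.trans (hSn η (hS'S hη))
  rw [List.forall₂_iff_get]
  refine ⟨hlp.trans hlq.symm, fun k h1 h2 => ?_⟩
  have hkn : k < n := hlp ▸ h1
  have h3 := hw ξ k (by rw [hlp]; exact hkn)
  have h4 := hw η k (by rw [hSn η (hS'S hη)]; exact hkn)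
  have h5 : Compat ((p ξ).getD k p0) (w η k) :=
    Compat.mono' (hS' ξ hξ η hη ⟨k, hkn⟩) h3.1 le_rfl
  have h6 : a (ζ ⟨k, hkn⟩) = (p ξ).getD k p0 := hζ ⟨k, hkn⟩
  rw [← h6] at h5
  have h7 := h4.2 _ (hζη ⟨k, hkn⟩) h5
  rw [h6, List.getD_eq_getElem _ _ h1, List.getD_eq_getElem _ _ h2] at h7
  exact h7

theorem exists_enum {P : Type} {E : Set P} (hne : E.Nonempty) {Ω : Type}
    (hΩ : Cardinal.mk Ω = Cardinal.aleph 1) (hE : Cardinal.mk E ≤ Cardinal.aleph 1) :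
    ∃ a : Ω → P, (∀ ξ, a ξ ∈ E) ∧ ∀ p ∈ E, ∃ ξ, a ξ = p := by
  obtain ⟨p0, hp0⟩ := hne
  rw [← hΩ] at hE
  obtain ⟨g⟩ := (Cardinal.le_def _ _).1 hE
  have hne : Nonempty E := ⟨⟨p0, hp0⟩⟩
  refine ⟨fun ξ => (Function.invFun g ξ : E), fun ξ => (Function.invFun g ξ).2, fun p hp => ?_⟩
  refine ⟨g ⟨p, hp⟩, ?_⟩
  have h1 : Function.invFun g (g ⟨p, hp⟩) = ⟨p, hp⟩ :=
    Function.leftInverse_invFun g.injective ⟨p, hp⟩
  exact congrArg Subtype.val h1

theorem sigmaLinked_of_over (H : Star) {P : Type} [PartialOrder P] (hP : CCC P) {E : Set P}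
    (hE : Cardinal.mk E ≤ Cardinal.aleph 1)
    (hloc : ∀ A : Set P, A ⊆ E → A.Countable → SigmaLinkedOver E A) : SigmaLinked E := by
  classical
  rcases E.eq_empty_or_nonempty with rfl | hne
  · exact ⟨fun _ => ∅, Set.empty_subset _, fun _ p hp => absurd hp (Set.notMem_empty p)⟩
  obtain ⟨Ω, i1, i2, i3, hc, hΩ⟩ := exists_omega1
  have hcard : Cardinal.mk Ω ≤ Cardinal.continuum := by
    rw [hΩ]; exact Cardinal.aleph_one_le_continuum
  obtain ⟨a, haE, haS⟩ := exists_enum hne hΩ hE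
  have hτ : ∀ η : Ω, ∃ τ : P → ℕ, ∀ p ∈ E, ∀ q ∈ E, τ p = τ q →
      ∃ p' ≤ p, ∀ ξ < η, Compat (a ξ) p' → Compat (a ξ) q := by
    intro η
    obtain ⟨W, hW1, hW2⟩ := hloc (a '' Set.Iio η) (by
      rintro _ ⟨ξ, _, rfl⟩
      exact haE ξ) ((hc η).image a)
    have hn : ∀ p, ∃ n, p ∈ E → p ∈ W n := by
      intro p
      by_cases hp : p ∈ E
      · obtain ⟨n, hn⟩ := Set.mem_iUnion.1 (hW1 hp)
        exact ⟨n, fun _ => hn⟩
      · exact ⟨0, fun h => absurd h hp⟩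
    choose τ hτ using hn
    refine ⟨τ, fun p hp q hq hpq => ?_⟩
    obtain ⟨p', h1, h2⟩ := hW2 (τ p) p (hτ p hp) q (hpq ▸ hτ q hq)
    exact ⟨p', h1, fun ξ hξ => h2 _ ⟨ξ, hξ, rfl⟩⟩
  choose τ hτ using hτ
  exact sigmaLinked_of_tame H hP hc hcard a haE haS τ
    (tame_of_local (H P hP) hc a haS τ hτ)

theorem sigmaLinked_iff (H : Star) {P : Type} [PartialOrder P] (hP : CCC P) {E : Set P}
    (hE : Cardinal.mk E ≤ Cardinal.aleph 1) :
    SigmaLinked E ↔ ∀ A : Set P, A ⊆ E → A.Countable → SigmaLinkedOver E A :=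
  ⟨fun h A _ _ => sigmaLinkedOver_of h A, sigmaLinked_of_over H hP hE⟩

end Pool.Agent.Helper87.RG
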