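import Mathlib
import Pool.Agent.Helper87.RG.Glob

set_option autoImplicit false

/-!
# Graphs with countable traces plus rectangular graphs
-/

namespace Pool.Agent.Helper87.RG

open Set
open Pool.Agent.Helper8.KP

/-- a sparse uncountable subset -/
theorem exists_sparse {Ω : Type} [LinearOrder Ω] [WellFoundedLT Ω] [Uncountable Ω]
    (hc : ∀ a : Ω, (Set.Iio a).Countable) (N : Ω → Finset Ω) {S : Set Ω} (hS : ¬ S.Countable) :
    ∃ S2 ⊆ S, ¬ S2.Countable ∧ ∀ ξ ∈ S2, ∀ η ∈ S2, ξ < η → ∀ a ∈ N ξ, a < η := by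
  classical
  obtain ⟨M, hM⟩ := zorn_subset {T : Set Ω | T ⊆ S ∧
      ∀ ξ ∈ T, ∀ η ∈ T, ξ < η → ∀ a ∈ N ξ, a < η} (by
    intro 𝔠 h𝔠 hch
    refine ⟨⋃₀ 𝔠, ⟨?_, ?_⟩, fun T hT => Set.subset_sUnion_of_mem hT⟩
    · rintro a ⟨T, hT, ha⟩
      exact (h𝔠 hT).1 ha
    · rintro ξ ⟨T, hT, hξ⟩ η ⟨T', hT', hη⟩ hlt
      rcases hch.total hT hT' with h | h
      · exact (h𝔠 hT').2 ξ (h hξ) η hη hlt
      · exact (h𝔠 hT).2 ξ hξ η (h hη) hlt)
  refine ⟨M, hM.prop.1, ?_, hM.prop.2⟩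
  intro hcount
  have h1 : (M ∪ ⋃ ξ ∈ M, (N ξ : Set Ω)).Countable :=
    hcount.union (hcount.biUnion fun ξ _ => (N ξ).countable_toSet)
  obtain ⟨γ, hγ⟩ := exists_gt_of_countable hc h1
  obtain ⟨η, hηS, hη⟩ : ∃ η ∈ S, γ < η := by
    by_contra hcon
    push Not at hcon
    apply hS
    have h3 : (Set.Iic γ).Countable := by
      rw [← Set.Iio_insert]
      exact (hc γ).insert γ
    exact h3.mono hcon
  have hlt : ∀ ξ ∈ M, ξ < η := fun ξ hξ => (hγ ξ (Or.inl hξ)).trans hη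
  have h2 : η ∈ M := by
    refine hM.le_of_ge (y := insert η M) ⟨?_, ?_⟩ (Set.subset_insert _ _) (Set.mem_insert _ _)
    · rintro a (rfl | ha)
      · exact hηS
      · exact hM.prop.1 ha
    · rintro ξ (rfl | hξ) η' (rfl | hη') hlt'
      · exact absurd hlt' (lt_irrefl _)
      · exact absurd hlt' (not_lt.2 (hlt η' hη').le)
      · intro a ha
        exact (hγ a (Or.inr (Set.mem_biUnion hξ ha))).trans hη
      · exact hM.prop.2 ξ hξ η' hη' hlt'
  exact lt_irrefl _ (hlt η h2)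

/-- an uncountable set contains two disjoint uncountable sets -/
theorem exists_split {Ω : Type} {S : Set Ω} (hS : ¬ S.Countable) :
    ∃ A ⊆ S, ∃ B ⊆ S, ¬ A.Countable ∧ ¬ B.Countable ∧ ∀ a ∈ A, ∀ b ∈ B, a ≠ b := by
  have hinf : Cardinal.aleph0 ≤ Cardinal.mk S := by
    rw [← Set.countable_coe_iff, not_countable_iff, ← Cardinal.aleph0_lt_mk_iff] at hS
    exact hS.le
  obtain ⟨φ⟩ : Nonempty (S ⊕ S ≃ S) := by
    rw [← Cardinal.eq, Cardinal.mk_sum, Cardinal.lift_id, Cardinal.add_eq_self hinf]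
  refine ⟨Set.range fun a : S => (φ (Sum.inl a) : Ω), ?_, Set.range fun a : S => (φ (Sum.inr a) : Ω),
    ?_, ?_, ?_, ?_⟩
  · rintro _ ⟨a, rfl⟩
    exact (φ _).2
  · rintro _ ⟨a, rfl⟩
    exact (φ _).2
  · intro h
    apply hS
    rw [← Set.countable_coe_iff, ← Set.countable_univ_iff]
    rw [← Set.image_univ] at h
    refine Set.MapsTo.countable_of_injOn (Set.mapsTo_image _ _) ?_ h
    intro a _ b _ hab
    have h1 := φ.injective (Subtype.ext hab)
    exact Sum.inl_injective h1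
  · intro h
    apply hS
    rw [← Set.countable_coe_iff, ← Set.countable_univ_iff]
    rw [← Set.image_univ] at h
    refine Set.MapsTo.countable_of_injOn (Set.mapsTo_image _ _) ?_ h
    intro a _ b _ hab
    have h1 := φ.injective (Subtype.ext hab)
    exact Sum.inr_injective h1
  · rintro _ ⟨a, rfl⟩ _ ⟨b, rfl⟩ hab
    have h1 := φ.injective (Subtype.ext hab)
    exact Sum.inl_ne_inr h1

/-- a function with countable range is coded by natural numbers -/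
theorem exists_code {α β : Type*} (f : α → β) (h : (Set.range f).Countable) :
    ∃ τ : α → ℕ, ∀ p q, τ p = τ q → f p = f q := by
  obtain ⟨g, hg⟩ := Set.countable_iff_exists_injOn.1 h
  exact ⟨fun p => g (f p), fun p q hpq => hg ⟨p, rfl⟩ ⟨q, rfl⟩ hpq⟩

variable {Ω : Type} [LinearOrder Ω]

/-- the neighbours below `η` of the elements of `F` -/
def nb (G : SimpleGraph Ω) (η : Ω) (F : Finset Ω) : Set Ω := {w | w < η ∧ ∃ v ∈ F, G.Adj w v}

theorem countable_nb {G : SimpleGraph Ω} {η : Ω}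
    (h : (Set.range fun v => {w | w < η ∧ G.Adj w v}).Countable) :
    (Set.range (nb G η)).Countable := by
  classical
  have h1 := (Set.countable_ofPred_finite_subset h).image (fun s : Set (Set Ω) => ⋃₀ s)
  refine h1.mono ?_
  rintro _ ⟨F, rfl⟩
  refine ⟨(fun v => {w | w < η ∧ G.Adj w v}) '' (F : Set Ω), ⟨F.finite_toSet.image _, ?_⟩, ?_⟩
  · rintro _ ⟨v, _, rfl⟩
    exact ⟨v, rfl⟩
  · ext w
    simp only [nb, Set.mem_sUnion, Set.mem_image, Set.mem_ofPred_eq]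
    constructor
    · rintro ⟨_, ⟨v, hv, rfl⟩, h1, h2⟩
      exact ⟨h1, v, hv, h2⟩
    · rintro ⟨h1, v, hv, h2⟩
      exact ⟨_, ⟨v, hv, rfl⟩, h1, h2⟩

/-- two elements of the poset of finite cliques are compatible if the cross pairs are related -/
theorem compat_cliq {R : Ω → Ω → Prop} {p q : Cliq R}
    (h : ∀ a ∈ p.s, ∀ b ∈ q.s, a ≠ b → R a b ∧ R b a) : Compat p q := by
  classical
  refine ⟨⟨p.s ∪ q.s, ?_⟩, ?_, ?_⟩
  · intro a ha b hb hab
    rcases Finset.mem_union.1 ha with ha | ha <;> rcases Finset.mem_union.1 hb with hb | hb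
    · exact p.h a ha b hb hab
    · exact (h a ha b hb hab).1
    · exact (h b hb a ha hab.symm).2
    · exact q.h a ha b hb hab
  · exact Finset.subset_union_left
  · exact Finset.subset_union_right

theorem rel_of_compat {R : Ω → Ω → Prop} {p q : Cliq R} (h : Compat p q) :
    ∀ a ∈ p.s, ∀ b ∈ q.s, a ≠ b → R a b := by
  obtain ⟨r, h1, h2⟩ := h
  intro a ha b hb hab
  exact r.h a (h1 ha) b (h2 hb) hab

/-- the colourings of the poset of finite independent sets are tame -/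
theorem tame_graph [WellFoundedLT Ω] [Uncountable Ω] (hc : ∀ a : Ω, (Set.Iio a).Countable)
    {G1 G2 : SimpleGraph Ω} (hG : Rectangular G2)
    (hK : PropertyK (Cliq fun a b => ¬ (G1 ⊔ G2).Adj a b))
    {τ : Ω → (Cliq fun a b => ¬ (G1 ⊔ G2).Adj a b) → ℕ}
    (hτ : ∀ η u v, τ η u = τ η v → (∀ w, w < η → (w ∈ u.s ↔ w ∈ v.s)) ∧
      nb G1 η u.s = nb G1 η v.s) : Tame Set.univ τ := by
  classical
  intro c p q hpq
  have hneΩ : Nonempty Ω := inferInstance
  have huniv : ¬ (Set.univ : Set Ω).Countable := by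
    rw [Set.countable_univ_iff, not_countable_iff]
    infer_instance
  let p0 : Cliq fun a b => ¬ (G1 ⊔ G2).Adj a b :=
    ⟨∅, fun a ha => absurd ha (Finset.notMem_empty a)⟩
  have hlen : ∀ η, (p η).length = (q η).length := fun η => (hpq η).length_eq
  -- constant data
  obtain ⟨v, hv⟩ := press hc (β := ℕ) (γ := ℕ × ℕ) (fun η =>
    (((Finset.range (p η).length).biUnion fun k =>
      (((p η).getD k p0).s.filter (fun w => w < η)).image fun w => (k, w)), (c η, (p η).length)))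
    (by
      intro η x hx
      obtain ⟨k, _, hk⟩ := Finset.mem_biUnion.1 hx
      obtain ⟨w, hw, rfl⟩ := Finset.mem_image.1 hk
      exact (Finset.mem_filter.1 hw).2)
  set S : Set Ω := {η | (fun η =>
    (((Finset.range (p η).length).biUnion fun k =>
      (((p η).getD k p0).s.filter (fun w => w < η)).image fun w => (k, w)), (c η, (p η).length)))
        η = v} with hSdef
  have hS : ¬ S.Countable := by
    intro hcon
    obtain ⟨γ, hγ⟩ := exists_gt_of_countable hc hcon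
    obtain ⟨η, h1, h2⟩ := hv γ
    exact absurd (hγ η h2) (not_lt.2 h1)
  obtain ⟨v1, c0, n⟩ := v
  have hSc : ∀ η ∈ S, c η = c0 := fun η h => (Prod.mk.inj (Prod.mk.inj h).2).1
  have hSn : ∀ η ∈ S, (p η).length = n := fun η h => (Prod.mk.inj (Prod.mk.inj h).2).2
  have hSr : ∀ η ∈ S, ∀ k, k < n → ∀ w, (w ∈ ((p η).getD k p0).s ∧ w < η ↔ (k, w) ∈ v1) := by
    intro η h k hk w
    have h1 := (Prod.mk.inj h).1
    rw [← h1, Finset.mem_biUnion]
    constructor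
    · rintro ⟨h2, h3⟩
      refine ⟨k, Finset.mem_range.2 (by rw [hSn η h]; exact hk), ?_⟩
      exact Finset.mem_image.2 ⟨w, Finset.mem_filter.2 ⟨h2, h3⟩, rfl⟩
    · rintro ⟨k', _, hk'⟩
      obtain ⟨w', hw', he⟩ := Finset.mem_image.1 hk'
      obtain ⟨rfl, rfl⟩ := Prod.mk.inj he
      exact Finset.mem_filter.1 hw'
  have hget : ∀ η, ∀ k, k < (p η).length →
      (∀ w, w < η → (w ∈ ((p η).getD k p0).s ↔ w ∈ ((q η).getD k p0).s)) ∧
      nb G1 η ((p η).getD k p0).s = nb G1 η ((q η).getD k p0).s := by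
    intro η k hk
    have hk' : k < (q η).length := hlen η ▸ hk
    have h1 := (List.forall₂_iff_get.1 (hpq η)).2 k hk hk'
    rw [List.getD_eq_getElem _ _ hk, List.getD_eq_getElem _ _ hk']
    exact hτ η _ _ h1.2.2
  -- linked refinements
  obtain ⟨S1, hS1, hS1c, hl1⟩ := linked_families hK hS (fun η (k : Fin n) => (p η).getD k p0)
  obtain ⟨S2, hS2, hS2c, hl2⟩ := linked_families hK hS1c (fun η (k : Fin n) => (q η).getD k p0)
  obtain ⟨S3, hS3, hS3c, hsp⟩ := exists_sparse hc (fun η =>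
    ((Finset.univ : Finset (Fin n)).biUnion fun k => ((p η).getD k p0).s) ∪
      ((Finset.univ : Finset (Fin n)).biUnion fun k => ((q η).getD k p0).s)) hS2c
  have hsp1 : ∀ ξ ∈ S3, ∀ η ∈ S3, ξ < η → ∀ k : Fin n, ∀ a ∈ ((p ξ).getD k p0).s, a < η := by
    intro ξ hξ η hη hlt k a ha
    exact hsp ξ hξ η hη hlt a (Finset.mem_union_left _ (Finset.mem_biUnion.2
      ⟨k, Finset.mem_univ _, ha⟩))
  have hsp2 : ∀ ξ ∈ S3, ∀ η ∈ S3, ξ < η → ∀ k : Fin n, ∀ a ∈ ((q ξ).getD k p0).s, a < η := by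
    intro ξ hξ η hη hlt k a ha
    exact hsp ξ hξ η hη hlt a (Finset.mem_union_right _ (Finset.mem_biUnion.2
      ⟨k, Finset.mem_univ _, ha⟩))
  have hS3S : S3 ⊆ S := hS3.trans (hS2.trans hS1)
  obtain ⟨Sa, hSa, Sb, hSb, hSac, hSbc, hab⟩ := exists_split hS3c
  -- the tails
  let A : Ω → Finset Ω := fun ξ =>
    ((Finset.univ : Finset (Fin n)).biUnion fun k => ((p ξ).getD k p0).s).filter (fun w => ξ ≤ w)
  let B : Ω → Finset Ω := fun ξ =>
    ((Finset.univ : Finset (Fin n)).biUnion fun k => ((q ξ).getD k p0).s).filter (fun w => ξ ≤ w)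
  have hA : ∀ ξ w, w ∈ A ξ ↔ (∃ k : Fin n, w ∈ ((p ξ).getD k p0).s) ∧ ξ ≤ w := by
    intro ξ w
    simp only [A, Finset.mem_filter, Finset.mem_biUnion, Finset.mem_univ, true_and]
  have hB : ∀ ξ w, w ∈ B ξ ↔ (∃ k : Fin n, w ∈ ((q ξ).getD k p0).s) ∧ ξ ≤ w := by
    intro ξ w
    simp only [B, Finset.mem_filter, Finset.mem_biUnion, Finset.mem_univ, true_and]
  have hAdis : ∀ ξ ∈ S3, ∀ ξ' ∈ S3, ξ ≠ ξ' → Disjoint (A ξ) (A ξ') := by
    intro ξ hξ ξ' hξ' hne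
    rw [Finset.disjoint_left]
    intro w hw hw'
    obtain ⟨⟨k, hk⟩, h1⟩ := (hA ξ w).1 hw
    obtain ⟨⟨k', hk'⟩, h1'⟩ := (hA ξ' w).1 hw'
    rcases lt_or_gt_of_ne hne with h | h
    · exact absurd (hsp1 ξ hξ ξ' hξ' h k w hk) (not_lt.2 h1')
    · exact absurd (hsp1 ξ' hξ' ξ hξ h k' w hk') (not_lt.2 h1)
  have hBdis : ∀ ξ ∈ S3, ∀ ξ' ∈ S3, ξ ≠ ξ' → Disjoint (B ξ) (B ξ') := by
    intro ξ hξ ξ' hξ' hne
    rw [Finset.disjoint_left]
    intro w hw hw'
    obtain ⟨⟨k, hk⟩, h1⟩ := (hB ξ w).1 hw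
    obtain ⟨⟨k', hk'⟩, h1'⟩ := (hB ξ' w).1 hw'
    rcases lt_or_gt_of_ne hne with h | h
    · exact absurd (hsp2 ξ hξ ξ' hξ' h k w hk) (not_lt.2 h1')
    · exact absurd (hsp2 ξ' hξ' ξ hξ h k' w hk') (not_lt.2 h1)
  -- a pair without edges of the second graph
  obtain ⟨ξ, hξ, η, hη, hno⟩ : ∃ ξ ∈ Sa, ∃ η ∈ Sb, ∀ w ∈ A ξ, ∀ v ∈ B η, ¬ G2.Adj w v := by
    by_cases h1 : ∃ ξ ∈ Sa, A ξ = ∅
    · obtain ⟨ξ, hξ, h2⟩ := h1
      obtain ⟨η, hη, -⟩ := exists_two hSbc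
      refine ⟨ξ, hξ, η, hη, fun w hw => ?_⟩
      rw [h2] at hw
      exact absurd hw (Finset.notMem_empty w)
    by_cases h2 : ∃ η ∈ Sb, B η = ∅
    · obtain ⟨η, hη, h2⟩ := h2
      obtain ⟨ξ, hξ, -⟩ := exists_two hSac
      refine ⟨ξ, hξ, η, hη, fun w _ v hv => ?_⟩
      rw [h2] at hv
      exact absurd hv (Finset.notMem_empty v)
    push Not at h1 h2
    obtain ⟨_, ⟨ξ, hξ, rfl⟩, _, ⟨η, hη, rfl⟩, h3⟩ := hG (A '' Sa) (B '' Sb)
      (by
        intro hcon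
        refine hSac (Set.MapsTo.countable_of_injOn (Set.mapsTo_image _ _) ?_ hcon)
        intro ξ hξ ξ' hξ' he
        by_contra hne
        have h4 := hAdis ξ (hSa hξ) ξ' (hSa hξ') hne
        have he' : A ξ = A ξ' := he
        rw [← he', disjoint_self] at h4
        exact (h1 ξ hξ).ne_empty h4)
      (by
        intro hcon
        refine hSbc (Set.MapsTo.countable_of_injOn (Set.mapsTo_image _ _) ?_ hcon)
        intro ξ hξ ξ' hξ' he
        by_contra hne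
        have h4 := hBdis ξ (hSb hξ) ξ' (hSb hξ') hne
        have he' : B ξ = B ξ' := he
        rw [← he', disjoint_self] at h4
        exact (h2 ξ hξ).ne_empty h4)
      (by
        rintro _ ⟨ξ, hξ, rfl⟩ _ ⟨ξ', hξ', rfl⟩ hne
        exact hAdis ξ (hSa hξ) ξ' (hSa hξ') fun h => hne (by rw [h]))
      (by
        rintro _ ⟨ξ, hξ, rfl⟩ _ ⟨ξ', hξ', rfl⟩ hne
        exact hBdis ξ (hSb hξ) ξ' (hSb hξ') fun h => hne (by rw [h]))
    exact ⟨ξ, hξ, η, hη, h3⟩
  have hne : ξ ≠ η := hab ξ hξ η hη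
  have hξ3 := hSa hξ
  have hη3 := hSb hη
  refine ⟨ξ, η, (hSc ξ (hS3S hξ3)).trans (hSc η (hS3S hη3)).symm, ?_⟩
  have hlp : (p ξ).length = n := hSn ξ (hS3S hξ3)
  have hlq : (q η).length = n := (hlen η).symm.trans (hSn η (hS3S hη3))
  -- no edge between the two cliques
  have key : ∀ k : Fin n, ∀ w ∈ ((p ξ).getD k p0).s, ∀ v ∈ ((q η).getD k p0).s, w ≠ v →
      ¬ (G1 ⊔ G2).Adj w v := by
    intro k w hw v hv hwv
    have hkξ : (k : ℕ) < (p ξ).length := by rw [hlp]; exact k.2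
    have hkη : (k : ℕ) < (p η).length := by rw [hSn η (hS3S hη3)]; exact k.2
    by_cases hwξ : w < ξ
    · -- `w` belongs to the root
      have h1 := (hSr ξ (hS3S hξ3) k k.2 w).1 ⟨hw, hwξ⟩
      have h2 := (hSr η (hS3S hη3) k k.2 w).2 h1
      have h3 := ((hget η k hkη).1 w h2.2).1 h2.1
      exact ((q η).getD k p0).h w h3 v hv hwv
    by_cases hvη : v < η
    · have h0 := ((hget η k hkη).1 v hvη).2 hv
      have h1 := (hSr η (hS3S hη3) k k.2 v).1 ⟨h0, hvη⟩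
      have h2 := (hSr ξ (hS3S hξ3) k k.2 v).2 h1
      exact ((p ξ).getD k p0).h w hw v h2.1 hwv
    push Not at hwξ hvη
    have hn2 : ¬ G2.Adj w v := hno w ((hA ξ w).2 ⟨⟨k, hw⟩, hwξ⟩) v ((hB η v).2 ⟨⟨k, hv⟩, hvη⟩)
    have hn1 : ¬ G1.Adj w v := by
      intro hadj
      rcases lt_or_gt_of_ne hne with hlt | hlt
      · have hwη : w < η := hsp1 ξ hξ3 η hη3 hlt k w hw
        have h1 : w ∈ nb G1 η ((q η).getD k p0).s := ⟨hwη, v, hv, hadj⟩
        rw [← (hget η k hkη).2] at h1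
        obtain ⟨_, v', hv', hadj'⟩ := h1
        exact rel_of_compat (hl1 ξ (hS2 (hS3 hξ3)) η (hS2 (hS3 hη3)) k) w hw v' hv' hadj'.ne
          (Or.inl hadj')
      · have hvξ : v < ξ := hsp2 η hη3 ξ hξ3 hlt k v hv
        have h1 : v ∈ nb G1 ξ ((p ξ).getD k p0).s := ⟨hvξ, w, hw, hadj.symm⟩
        rw [(hget ξ k hkξ).2] at h1
        obtain ⟨_, w', hw', hadj'⟩ := h1
        exact rel_of_compat (hl2 η (hS3 hη3) ξ (hS3 hξ3) k) v hv w' hw' hadj'.ne
          (Or.inl hadj')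
    rintro (h | h)
    · exact hn1 h
    · exact hn2 h
  rw [List.forall₂_iff_get]
  refine ⟨hlp.trans hlq.symm, fun k h1 h2 => ?_⟩
  have hkn : k < n := hlp ▸ h1
  have h3 : Compat ((p ξ).getD k p0) ((q η).getD k p0) := compat_cliq fun w hw v hv hwv =>
    ⟨key ⟨k, hkn⟩ w hw v hv hwv, fun h => key ⟨k, hkn⟩ w hw v hv hwv h.symm⟩
  rw [List.getD_eq_getElem _ _ h1, List.getD_eq_getElem _ _ h2] at h3
  exact h3

end Pool.Agent.Helper87.RG
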