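import Mathlib
import Pool.Agent.Helper87.RG.GPlus

set_option autoImplicit false

/-!
# The covering theorem for graphs with countable traces plus rectangular graphs
-/

namespace Pool.Agent.Helper87.RG

open Set
open Pool.Agent.Helper8.KP

theorem gplus_omega (H : Star) {Ω : Type} [LinearOrder Ω] [WellFoundedLT Ω] [Uncountable Ω]
    (hc : ∀ a : Ω, (Set.Iio a).Countable) (hΩ : Cardinal.mk Ω = Cardinal.aleph 1)
    (G1 G2 : SimpleGraph Ω) (h1 : CountableTraces G1) (h2 : Rectangular G2)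
    (h3 : CCCGraph (G1 ⊔ G2)) :
    ∃ W : ℕ → Set Ω, (∀ n, (G1 ⊔ G2).IsIndepSet (W n)) ∧
      ∀ F : Finset Ω, (G1 ⊔ G2).IsIndepSet (F : Set Ω) → ∃ n, (F : Set Ω) ⊆ W n := by
  classical
  have hcard : Cardinal.mk Ω ≤ Cardinal.continuum := by
    rw [hΩ]; exact Cardinal.aleph_one_le_continuum
  have hclq : ∀ p : Cliq fun a b => ¬ (G1 ⊔ G2).Adj a b, (G1 ⊔ G2).IsIndepSet (p.s : Set Ω) :=
    fun p a ha b hb hab => p.h a ha b hb hab
  have hinj : Function.Injective (fun p : Cliq fun a b => ¬ (G1 ⊔ G2).Adj a b => p.s) :=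
    fun p q h => Cliq.ext' h
  have hCCC : CCC (Cliq fun a b => ¬ (G1 ⊔ G2).Adj a b) := by
    intro A hA
    by_contra hAc
    obtain ⟨_, ⟨p, hp, rfl⟩, _, ⟨q, hq, rfl⟩, hne, hpq⟩ := h3
      ((fun p : Cliq fun a b => ¬ (G1 ⊔ G2).Adj a b => p.s) '' A)
      (fun hcon => hAc (Set.MapsTo.countable_of_injOn (Set.mapsTo_image _ _) hinj.injOn hcon))
      (by
        rintro _ ⟨p, _, rfl⟩
        exact hclq p)
    refine hA p hp q hq (fun h => hne (by rw [h])) (compat_cliq fun a ha b hb hab => ?_)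
    exact ⟨hpq (Or.inl ha) (Or.inr hb) hab, hpq (Or.inr hb) (Or.inl ha) hab.symm⟩
  have hK := H _ hCCC
  have hE : Cardinal.mk (Set.univ : Set (Cliq fun a b => ¬ (G1 ⊔ G2).Adj a b)) ≤
      Cardinal.aleph 1 := by
    rw [Cardinal.mk_univ]
    refine (Cardinal.mk_le_of_injective hinj).trans ?_
    have : Infinite Ω := inferInstance
    rw [Cardinal.mk_finset_of_infinite, hΩ]
  have hne : (Set.univ : Set (Cliq fun a b => ¬ (G1 ⊔ G2).Adj a b)).Nonempty :=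
    ⟨⟨∅, fun a ha => absurd ha (Finset.notMem_empty a)⟩, trivial⟩
  obtain ⟨a, haE, haS⟩ := exists_enum hne hΩ hE
  have hτ : ∀ η : Ω, ∃ τ : (Cliq fun a b => ¬ (G1 ⊔ G2).Adj a b) → ℕ, ∀ u v, τ u = τ v →
      (∀ w, w < η → (w ∈ u.s ↔ w ∈ v.s)) ∧ nb G1 η u.s = nb G1 η v.s := by
    intro η
    have hcn : (Set.range (nb G1 η)).Countable := by
      apply countable_nb
      exact h1 (Set.Iio η) (hc η)
    have hcf : (Set.range fun u : Cliq fun a b => ¬ (G1 ⊔ G2).Adj a b =>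
        (u.s.filter (fun w => w < η), nb G1 η u.s)).Countable := by
      have h4 : {F : Finset Ω | ∀ x ∈ F, x ∈ Set.Iio η}.Countable := countable_finsets (hc η)
      refine (h4.prod hcn).mono ?_
      rintro _ ⟨u, rfl⟩
      exact ⟨fun x hx => (Finset.mem_filter.1 hx).2, ⟨u.s, rfl⟩⟩
    obtain ⟨τ, hτ⟩ := exists_code _ hcf
    refine ⟨τ, fun u v huv => ?_⟩
    obtain ⟨e1, e2⟩ := Prod.mk.inj (hτ u v huv)
    refine ⟨fun w hw => ?_, e2⟩
    have e3 : w ∈ u.s.filter (fun w => w < η) ↔ w ∈ v.s.filter (fun w => w < η) := by rw [e1]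
    rw [Finset.mem_filter, Finset.mem_filter] at e3
    exact ⟨fun h => (e3.1 ⟨h, hw⟩).1, fun h => (e3.2 ⟨h, hw⟩).1⟩
  choose τ hτ using hτ
  obtain ⟨W, hW1, hW2⟩ := sigmaLinked_of_tame H hCCC hc hcard a haE haS τ
    (tame_graph hc h2 hK hτ)
  refine ⟨fun n => {w | ∃ p ∈ W n, w ∈ p.s}, ?_, ?_⟩
  · rintro n w ⟨p, hp, hw⟩ v ⟨q, hq, hv⟩ hwv
    exact rel_of_compat (hW2 n p hp q hq) w hw v hv hwv
  · intro F hF
    have hp : (⟨F, fun a ha b hb hab => hF ha hb hab⟩ : Cliq fun a b => ¬ (G1 ⊔ G2).Adj a b) ∈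
        ⋃ n, W n := hW1 trivial
    obtain ⟨n, hn⟩ := Set.mem_iUnion.1 hp
    exact ⟨n, fun w hw => ⟨_, hn, hw⟩⟩

universe u

/-- The covering theorem. -/
theorem gplus (H : Star) {V : Type u} (hV : Cardinal.mk V ≤ Cardinal.aleph 1)
    (G1 G2 : SimpleGraph V) (h1 : CountableTraces G1) (h2 : Rectangular G2)
    (h3 : CCCGraph (G1 ⊔ G2)) :
    ∃ W : ℕ → Set V, (∀ n, (G1 ⊔ G2).IsIndepSet (W n)) ∧
      ∀ F : Finset V, (G1 ⊔ G2).IsIndepSet (F : Set V) → ∃ n, (F : Set V) ⊆ W n := by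
  classical
  by_cases hcv : Countable V
  · obtain ⟨g, hg⟩ := exists_surjective_nat (Finset V)
    refine ⟨fun n => if (G1 ⊔ G2).IsIndepSet (g n : Set V) then (g n : Set V) else ∅,
      fun n => ?_, ?_⟩
    · dsimp only
      split_ifs with h
      · exact h
      · exact Set.pairwise_empty _
    · intro F hF
      obtain ⟨n, rfl⟩ := hg F
      exact ⟨n, (if_pos hF).ge⟩
  obtain ⟨Ω, i1, i2, i3, hc, hΩ⟩ := exists_omega1
  have hV1 : Cardinal.mk V = Cardinal.aleph 1 := by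
    refine le_antisymm hV ?_
    rw [not_countable_iff, ← Cardinal.aleph0_lt_mk_iff] at hcv
    rw [← Cardinal.succ_aleph0]
    exact Order.succ_le_of_lt hcv
  obtain ⟨φ⟩ : Nonempty (Ω ≃ V) := by
    rw [← Cardinal.lift_mk_eq', hΩ, hV1, Cardinal.lift_aleph, Cardinal.lift_aleph]
    simp
  have hinj : Function.Injective (Finset.map φ.toEmbedding) := Finset.map_injective _
  have hunc : ∀ 𝒜 : Set (Finset Ω), ¬ 𝒜.Countable →
      ¬ ((Finset.map φ.toEmbedding) '' 𝒜).Countable := by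
    intro 𝒜 h1 h2
    exact h1 (Set.MapsTo.countable_of_injOn (Set.mapsTo_image _ _) hinj.injOn h2)
  have hG2 : Rectangular (G2.comap φ) := by
    intro 𝒜 ℬ hA hB hAd hBd
    have hdj : ∀ 𝒜 : Set (Finset Ω), (∀ A ∈ 𝒜, ∀ B ∈ 𝒜, A ≠ B → Disjoint A B) →
        ∀ A ∈ (Finset.map φ.toEmbedding) '' 𝒜, ∀ B ∈ (Finset.map φ.toEmbedding) '' 𝒜,
          A ≠ B → Disjoint A B := by
      rintro 𝒜 h _ ⟨A, hA, rfl⟩ _ ⟨B, hB, rfl⟩ hAB
      rw [Finset.disjoint_map]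
      exact h A hA B hB fun h' => hAB (by rw [h'])
    obtain ⟨_, ⟨A, hA1, rfl⟩, _, ⟨B, hB1, rfl⟩, hAB⟩ := h2 _ _ (hunc 𝒜 hA) (hunc ℬ hB)
      (hdj 𝒜 hAd) (hdj ℬ hBd)
    refine ⟨A, hA1, B, hB1, fun a ha b hb h => ?_⟩
    exact hAB (φ a) (Finset.mem_map_of_mem _ ha) (φ b) (Finset.mem_map_of_mem _ hb) h
  have hG1 : CountableTraces (G1.comap φ) := by
    intro A hA
    refine ((h1 (φ '' A) (hA.image φ)).image (fun s => φ ⁻¹' s)).mono ?_
    rintro _ ⟨v, rfl⟩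
    refine ⟨_, ⟨φ v, rfl⟩, ?_⟩
    ext w
    simp only [Set.mem_preimage, Set.mem_ofPred_eq, SimpleGraph.comap_adj]
    constructor
    · rintro ⟨⟨w', hw', h⟩, h'⟩
      rw [← φ.injective h]
      exact ⟨hw', by rw [φ.injective h]; exact h'⟩
    · rintro ⟨hw, h'⟩
      exact ⟨⟨w, hw, rfl⟩, h'⟩
  have hsup : G1.comap φ ⊔ G2.comap φ = (G1 ⊔ G2).comap φ := by
    ext a b
    simp only [SimpleGraph.sup_adj, SimpleGraph.comap_adj]
  have hind : ∀ F : Set Ω, (G1.comap φ ⊔ G2.comap φ).IsIndepSet F ↔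
      (G1 ⊔ G2).IsIndepSet (φ '' F) := by
    intro F
    rw [hsup]
    constructor
    · rintro h _ ⟨a, ha, rfl⟩ _ ⟨b, hb, rfl⟩ hab
      exact h ha hb fun h' => hab (by rw [h'])
    · intro h a ha b hb hab
      exact h ⟨a, ha, rfl⟩ ⟨b, hb, rfl⟩ fun h' => hab (φ.injective h')
  have hcc : CCCGraph (G1.comap φ ⊔ G2.comap φ) := by
    intro 𝒜 hA hi
    obtain ⟨_, ⟨F, hF, rfl⟩, _, ⟨F', hF', rfl⟩, hne, hu⟩ := h3 _ (hunc 𝒜 hA) (by
      rintro _ ⟨F, hF, rfl⟩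
      have h4 := (hind _).1 (hi F hF)
      rw [Finset.coe_map]
      exact h4)
    refine ⟨F, hF, F', hF', fun h => hne (by rw [h]), ?_⟩
    rw [hind, Set.image_union]
    rw [Finset.coe_map, Finset.coe_map] at hu
    exact hu
  obtain ⟨W, hW1, hW2⟩ := gplus_omega H hc hΩ _ _ hG1 hG2 hcc
  refine ⟨fun n => φ '' W n, fun n => (hind _).1 (hW1 n), ?_⟩
  intro F hF
  obtain ⟨n, hn⟩ := hW2 (F.map φ.symm.toEmbedding) (by
    rw [hind, Finset.coe_map, ← Set.image_comp]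
    have : (φ ∘ φ.symm.toEmbedding : V → V) = id := by
      funext x
      exact φ.apply_symm_apply x
    rw [this, Set.image_id]
    exact hF)
  refine ⟨n, fun a ha => ⟨φ.symm a, hn ?_, φ.apply_symm_apply a⟩⟩
  exact Finset.mem_map_of_mem _ ha

end Pool.Agent.Helper87.RG
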