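import Mathlib
import Pool.Agent.Helper87.RG.Press
import Pool.Agent.SSM.Dsys

set_option autoImplicit false

/-!
# Ladder systems: chain condition and countable traces
-/

namespace Pool.Agent.Helper87.RG

open Set
open Pool.Agent.Helper8.KP (exists_gt_of_countable pigeon)

/-- two ladders are joined if their colourings differ at a common element -/
def ladGraph {Ω : Type} (C : Ω → Set Ω) (f : Ω → Ω → ℕ) : SimpleGraph Ω where
  Adj d e := ∃ ξ, ξ ∈ C d ∧ ξ ∈ C e ∧ f d ξ ≠ f e ξ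
  symm := ⟨fun _ _ ⟨ξ, h1, h2, h3⟩ => ⟨ξ, h2, h1, h3.symm⟩⟩
  loopless := ⟨fun _ ⟨_, _, _, h3⟩ => h3 rfl⟩

/-- only countably many members of a disjoint family meet a countable set -/
theorem countable_meet {I V : Type*} {S : Set I} (D : I → Finset V)
    (hD : ∀ i ∈ S, ∀ j ∈ S, i ≠ j → Disjoint (D i) (D j)) {A : Set V} (hA : A.Countable) :
    {i ∈ S | ∃ u ∈ D i, u ∈ A}.Countable := by
  classical
  by_cases hV : Nonempty V
  · have h3 : ∀ i, ∃ u, i ∈ {i ∈ S | ∃ u ∈ D i, u ∈ A} → u ∈ D i ∧ u ∈ A := by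
      intro i
      by_cases hi : i ∈ {i ∈ S | ∃ u ∈ D i, u ∈ A}
      · obtain ⟨u, hu⟩ := hi.2
        exact ⟨u, fun _ => hu⟩
      · exact ⟨hV.some, fun h' => absurd h' hi⟩
    choose g hg using h3
    refine Set.MapsTo.countable_of_injOn (f := g) (t := A) (fun i hi => (hg i hi).2) ?_ hA
    intro i hi j hj he
    by_contra hne
    refine Finset.disjoint_left.1 (hD i hi.1 j hj.1 hne) (hg i hi).1 ?_
    rw [he]
    exact (hg j hj).1
  · refine (countable_empty).mono ?_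
    rintro i ⟨_, u, _⟩
    exact absurd ⟨u⟩ hV

theorem lad_union {Ω : Type} [LinearOrder Ω] [WellFoundedLT Ω]
    (hc : ∀ a : Ω, (Set.Iio a).Countable) (C : Ω → Set Ω) (hC : ∀ d, C d ⊆ Set.Iio d)
    (hfin : ∀ d e, e < d → (C d ∩ Set.Iio e).Finite) (f : Ω → Ω → ℕ)
    (AA : Set (Finset Ω)) (hAA : ¬ AA.Countable)
    (hind : ∀ F ∈ AA, ∀ u ∈ F, ∀ v ∈ F, ¬ (ladGraph C f).Adj u v) :
    ∃ F ∈ AA, ∃ F' ∈ AA, F ≠ F' ∧ ∀ u ∈ F ∪ F', ∀ v ∈ F ∪ F', ¬ (ladGraph C f).Adj u v := by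
  classical
  have hUn : Uncountable Ω := by
    rw [← not_countable_iff]
    intro h
    exact hAA (Set.to_countable AA)
  obtain ⟨A1, hA1, hA1c, R, hR⟩ := SSM.exists_dsys hAA (fun F : Finset Ω => F)
  have hRsub : ∀ F ∈ A1, R ⊆ F := by
    intro F hF
    obtain ⟨G, hG, G', hG', hne⟩ := exists_two hA1c
    by_cases h : F = G
    · rw [← hR F hF G' hG' (by rw [h]; exact hne)]
      exact Finset.inter_subset_left
    · rw [← hR F hF G hG h]
      exact Finset.inter_subset_left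
  have hA2c : ¬ (A1 \ {R}).Countable := by
    intro h
    exact hA1c ((h.insert R).mono (fun F hF => by
      by_cases h' : F = R
      · exact Or.inl h'
      · exact Or.inr ⟨hF, h'⟩))
  obtain ⟨m, hm⟩ := pigeon hA2c (fun F : Finset Ω => (F \ R).card)
  obtain ⟨A3, hA3⟩ : ∃ A3 : Set (Finset Ω), A3 = {F ∈ A1 \ {R} | (F \ R).card = m} := ⟨_, rfl⟩
  rw [← hA3] at hm
  have hA31 : ∀ F ∈ A3, F ∈ A1 := fun F hF => by rw [hA3] at hF; exact hF.1.1
  have hA3m : ∀ F ∈ A3, (F \ R).card = m := fun F hF => by rw [hA3] at hF; exact hF.2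
  have hA3ne : ∀ F ∈ A3, F ≠ R := fun F hF => by rw [hA3] at hF; exact hF.1.2
  have hdis : ∀ F ∈ A3, ∀ F' ∈ A3, F ≠ F' → Disjoint (F \ R) (F' \ R) := by
    intro F hF F' hF' hne
    rw [Finset.disjoint_left]
    intro x hx hx'
    rw [Finset.mem_sdiff] at hx hx'
    apply hx.2
    rw [← hR F (hA31 F hF) F' (hA31 F' hF') hne]
    exact Finset.mem_inter.2 ⟨hx.1, hx'.1⟩
  have hIic : ∀ ζ : Ω, (Set.Iic ζ).Countable := by
    intro ζ
    rw [← Set.Iio_insert]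
    exact (hc ζ).insert ζ
  have hp : ∀ η : Ω, ∃ F ∈ A3, ∀ v ∈ F \ R, η < v := by
    intro η
    have h1 := countable_meet (S := A3) (fun F => F \ R) hdis (hIic η)
    by_contra h
    push Not at h
    refine hm (h1.mono ?_)
    intro F hF
    obtain ⟨v, hv, hle⟩ := h F hF
    exact ⟨hF, v, hv, hle⟩
  choose p hp1 hp2 using hp
  obtain ⟨e, he⟩ : ∃ e : Ω → Fin m → Ω, ∀ η v, v ∈ p η \ R ↔ ∃ a, e η a = v := by
    refine ⟨fun η => (p η \ R).orderEmbOfFin (hA3m _ (hp1 η)), fun η v => ?_⟩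
    have h1 := Finset.range_orderEmbOfFin (p η \ R) (hA3m _ (hp1 η))
    rw [← Finset.mem_coe, ← h1]
    rfl
  have helt : ∀ η a, η < e η a := fun η a => hp2 η _ ((he η _).2 ⟨a, rfl⟩)
  obtain ⟨π, hπ⟩ : ∃ π : Ω → Finset ((Fin m × ℕ) × Ω) × Unit, ∀ η q, q ∈ (π η).1 ↔
      ∃ a : Fin m, ∃ α, α ∈ C (e η a) ∧ α < η ∧ q = ((a, f (e η a) α), α) := by
    refine ⟨fun η => (Finset.univ.biUnion (fun a : Fin m =>
      (hfin (e η a) η (helt η a)).toFinset.image (fun α => ((a, f (e η a) α), α))), ()),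
      fun η q => ?_⟩
    simp only [Finset.mem_biUnion, Finset.mem_univ, true_and, Finset.mem_image,
      Set.Finite.mem_toFinset, Set.mem_inter_iff, Set.mem_Iio]
    constructor
    · rintro ⟨a, α, ⟨h1, h2⟩, rfl⟩
      exact ⟨a, α, h1, h2, rfl⟩
    · rintro ⟨a, α, h1, h2, rfl⟩
      exact ⟨a, α, ⟨h1, h2⟩, rfl⟩
  obtain ⟨v, hv⟩ := press hc π (by
    intro η x hx
    obtain ⟨a, α, _, h2, rfl⟩ := (hπ η x).1 hx
    exact h2)
  obtain ⟨η, -, hη⟩ := hv (Classical.arbitrary Ω)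
  obtain ⟨γ, hγ⟩ := exists_gt_of_countable hc (p η).countable_toSet
  obtain ⟨η', hηη', hη'⟩ := hv γ
  have hbd : ∀ d ∈ p η, d < η' := fun d hd => (hγ d hd).trans_le hηη'
  have hne : p η ≠ p η' := by
    intro h
    have h1 : (p η' \ R).Nonempty := by
      rw [Finset.nonempty_iff_ne_empty]
      intro h2
      rw [Finset.sdiff_eq_empty_iff_subset] at h2
      exact hA3ne _ (hp1 η') (Finset.Subset.antisymm h2 (hRsub _ (hA31 _ (hp1 η'))))
    obtain ⟨x, hx⟩ := h1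
    have h2 := hp2 η' x hx
    rw [← h] at hx
    exact absurd (hbd x (Finset.mem_sdiff.1 hx).1) (not_lt.2 h2.le)
  have hi1 := hind _ (hA1 (hA31 _ (hp1 η)))
  have hi2 := hind _ (hA1 (hA31 _ (hp1 η')))
  have key : ∀ d ∈ p η, ∀ d' ∈ p η', ¬ (ladGraph C f).Adj d d' := by
    rintro d hd d' hd' ⟨α, hα1, hα2, hα3⟩
    by_cases hdR : d' ∈ R
    · exact hi1 d hd d' (hRsub _ (hA31 _ (hp1 η)) hdR) ⟨α, hα1, hα2, hα3⟩
    · obtain ⟨a, rfl⟩ := (he η' d').1 (Finset.mem_sdiff.2 ⟨hd', hdR⟩)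
      have h1 : α < η' := lt_trans (hC d hα1) (hbd d hd)
      have h2 : ((a, f (e η' a) α), α) ∈ (π η').1 := (hπ η' _).2 ⟨a, α, hα2, h1, rfl⟩
      rw [hη', ← hη] at h2
      obtain ⟨b, β, h3, h4, h5⟩ := (hπ η _).1 h2
      obtain ⟨h6, h7⟩ := Prod.mk.inj h5
      obtain ⟨h8, h9⟩ := Prod.mk.inj h6
      subst h7
      subst h8
      have h10 : e η a ∈ p η := (Finset.mem_sdiff.1 ((he η _).2 ⟨a, rfl⟩)).1
      exact hi1 d hd (e η a) h10 ⟨α, hα1, h3, by rw [← h9]; exact hα3⟩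
  refine ⟨p η, hA1 (hA31 _ (hp1 η)), p η', hA1 (hA31 _ (hp1 η')), hne, ?_⟩
  intro u hu w hw
  rcases Finset.mem_union.1 hu with hu | hu <;> rcases Finset.mem_union.1 hw with hw | hw
  · exact hi1 u hu w hw
  · exact key u hu w hw
  · exact fun h => key w hw u hu h.symm
  · exact hi2 u hu w hw

theorem lad_traces {Ω : Type} [LinearOrder Ω] [Uncountable Ω]
    (hc : ∀ a : Ω, (Set.Iio a).Countable) (C : Ω → Set Ω) (hC : ∀ d, C d ⊆ Set.Iio d)
    (hfin : ∀ d e, e < d → (C d ∩ Set.Iio e).Finite) (f : Ω → Ω → ℕ) (A : Set Ω)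
    (hA : A.Countable) :
    {S : Set Ω | ∃ v, S = {a | a ∈ A ∧ (ladGraph C f).Adj v a}}.Countable := by
  classical
  obtain ⟨ξ, hξ⟩ := exists_gt_of_countable hc hA
  have hIic : (Set.Iic ξ).Countable := by
    rw [← Set.Iio_insert]
    exact (hc ξ).insert ξ
  -- the traces of the vertices above `ξ` are functions of finite sets
  have h1 : {F : Finset (Ω × ℕ) | ∀ x ∈ F, x ∈ Set.Iio ξ ×ˢ (Set.univ : Set ℕ)}.Countable :=
    countable_finsets ((hc ξ).prod Set.countable_univ)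
  have h2 := h1.image (fun F : Finset (Ω × ℕ) =>
    {a | a ∈ A ∧ ∃ x ∈ F, x.1 ∈ C a ∧ x.2 ≠ f a x.1})
  have h3 := hIic.image (fun v : Ω => {a | a ∈ A ∧ (ladGraph C f).Adj v a})
  refine (h2.union h3).mono ?_
  rintro S ⟨v, rfl⟩
  rcases le_or_gt v ξ with h | h
  · exact Or.inr ⟨v, h, rfl⟩
  · left
    refine ⟨(hfin v ξ h).toFinset.image (fun α => (α, f v α)), ?_, ?_⟩
    · intro x hx
      obtain ⟨α, hα, rfl⟩ := Finset.mem_image.1 hx
      exact ⟨((hfin v ξ h).mem_toFinset.1 hα).2, Set.mem_univ _⟩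
    · ext a
      constructor
      · rintro ⟨ha, x, hx, hx1, hx2⟩
        obtain ⟨α, hα, rfl⟩ := Finset.mem_image.1 hx
        exact ⟨ha, α, ((hfin v ξ h).mem_toFinset.1 hα).1, hx1, hx2⟩
      · rintro ⟨ha, α, h4, h5, h6⟩
        have h7 : α < ξ := lt_trans (hC a h5) (hξ a ha)
        exact ⟨ha, (α, f v α), Finset.mem_image.2 ⟨α, (hfin v ξ h).mem_toFinset.2 ⟨h4, h7⟩, rfl⟩,
          h5, h6⟩

/-- independent sets give uniformizing functions -/
theorem lad_unif {Ω : Type} (C : Ω → Set Ω) (f : Ω → Ω → ℕ) (W : Set Ω)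
    (hW : ∀ u ∈ W, ∀ v ∈ W, ¬ (ladGraph C f).Adj u v) :
    ∃ g : Ω → ℕ, ∀ d ∈ W, ∀ ξ ∈ C d, g ξ = f d ξ := by
  classical
  refine ⟨fun ξ => if h : ∃ d ∈ W, ξ ∈ C d then f h.choose ξ else 0, fun d hd ξ hξ => ?_⟩
  have h : ∃ d ∈ W, ξ ∈ C d := ⟨d, hd, hξ⟩
  simp only [dif_pos h]
  by_contra hne
  exact hW h.choose h.choose_spec.1 d hd ⟨ξ, h.choose_spec.2, hξ, hne⟩

end Pool.Agent.Helper87.RG
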