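import Mathlib
import Pool.Agent.Helper87.RG.GMain
import Pool.Agent.Helper87.RG.Cover
import Pool.Agent.Helper87.RG.Cor
import Pool.Agent.Helper87.RG.Lad

set_option autoImplicit false

/-!
# Applications of the covering theorems
-/

namespace Pool.Agent.Helper87.RG

open Set
open Pool.Agent.Helper8.KP

universe u

/-- a linear order with countable initial segments has at most `ℵ₁` elements -/
theorem card_le_aleph_one {V : Type u} [LinearOrder V] (hc : ∀ a : V, (Set.Iio a).Countable) :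
    Cardinal.mk V ≤ Cardinal.aleph 1 := by
  by_contra hcon
  push Not at hcon
  obtain ⟨S, hS⟩ := Cardinal.le_mk_iff_exists_set.1 hcon.le
  by_cases hb : ∃ γ : V, ∀ s ∈ S, s < γ
  · obtain ⟨γ, hγ⟩ := hb
    have h1 : S.Countable := (hc γ).mono hγ
    rw [Cardinal.countable_iff_lt_aleph_one, hS] at h1
    exact lt_irrefl _ h1
  · push Not at hb
    have h1 : (Set.univ : Set V) ⊆ ⋃ s : S, Set.Iic (s : V) := by
      intro v _
      obtain ⟨s, hs, hvs⟩ := hb v
      exact Set.mem_iUnion.2 ⟨⟨s, hs⟩, hvs⟩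
    have h2 : Cardinal.mk (⋃ s : S, Set.Iic (s : V)) ≤ Cardinal.aleph 1 := by
      refine (Cardinal.mk_iUnion_le _).trans ?_
      have h3 : (⨆ s : S, Cardinal.mk (Set.Iic (s : V))) ≤ Cardinal.aleph0 := by
        refine ciSup_le' fun s => ?_
        rw [Cardinal.mk_le_aleph0_iff, Set.countable_coe_iff]
        rw [← Set.Iio_insert]
        exact (hc _).insert _
      refine (mul_le_mul' hS.le h3).trans ?_
      rw [Cardinal.mul_aleph0_eq (Cardinal.aleph0_le_aleph 1)]
    have h3 := (Cardinal.mk_le_mk_of_subset h1).trans h2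
    rw [Cardinal.mk_univ] at h3
    exact absurd h3 (not_le.2 hcon)

/-- orders with chain initial segments and countable chains are countable unions of antichains -/
theorem special (H : Star) {T : Type u} [PartialOrder T] (hT : Cardinal.mk T ≤ Cardinal.aleph 1)
    (h1 : ∀ t : T, IsChain (· ≤ ·) (Set.Iic t))
    (h2 : ∀ C : Set T, IsChain (· ≤ ·) C → C.Countable) :
    ∃ W : ℕ → Set T, (∀ n, IsAntichain (· ≤ ·) (W n)) ∧ ⋃ n, W n = Set.univ := by
  obtain ⟨W, hW1, hW2⟩ := cover H hT (compGraph T) (rectangular_comp h1 h2)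
  refine ⟨W, fun n => compGraph_indep.1 (hW1 n), ?_⟩
  rw [Set.eq_univ_iff_forall]
  intro t
  obtain ⟨n, hn⟩ := hW2 {t} (by
    rw [Finset.coe_singleton]
    exact Set.pairwise_singleton _ _)
  exact Set.mem_iUnion.2 ⟨n, hn (by simp)⟩

theorem coloring_of_cover {V : Type u} {G : SimpleGraph V} (W : ℕ → Set V)
    (h1 : ∀ n, G.IsIndepSet (W n))
    (h2 : ∀ F : Finset V, G.IsIndepSet (F : Set V) → ∃ n, (F : Set V) ⊆ W n) :
    Nonempty (G.Coloring ℕ) := by
  have h3 : ∀ v : V, ∃ n, v ∈ W n := by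
    intro v
    obtain ⟨n, hn⟩ := h2 {v} (by
      rw [Finset.coe_singleton]
      exact Set.pairwise_singleton _ _)
    exact ⟨n, hn (by simp)⟩
  choose c hc using h3
  refine ⟨SimpleGraph.Coloring.mk c fun {a b} hab he => ?_⟩
  exact h1 (c a) (hc a) (he ▸ hc b) hab.ne hab

/-- Hajnal-Mate graphs have countable chromatic number -/
theorem hm_coloring (H : Star) {V : Type u} [LinearOrder V] (hc : ∀ a : V, (Set.Iio a).Countable)
    (G : SimpleGraph V) (h : ∀ u v : V, u < v → {w : V | w < u ∧ G.Adj w v}.Finite) :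
    Nonempty (G.Coloring ℕ) := by
  obtain ⟨W, h1, h2⟩ := cover H (card_le_aleph_one hc) G (rectangular_hm hc G h)
  exact coloring_of_cover W h1 h2

/-- the empty graph is rectangular -/
theorem rectangular_bot {V : Type*} : Rectangular (⊥ : SimpleGraph V) := by
  intro 𝒜 ℬ hA hB _ _
  obtain ⟨A, hA1, -⟩ := exists_two hA
  obtain ⟨B, hB1, -⟩ := exists_two hB
  exact ⟨A, hA1, B, hB1, fun a _ b _ h => h⟩

/-- the poset of finite uniformisations of a ladder system is sigma-centered -/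
theorem ladders (H : Star) {Ω : Type} [LinearOrder Ω] [WellFoundedLT Ω]
    (hc : ∀ a : Ω, (Set.Iio a).Countable) (C : Ω → Set Ω) (hC : ∀ d, C d ⊆ Set.Iio d)
    (hfin : ∀ d e, e < d → (C d ∩ Set.Iio e).Finite) (f : Ω → Ω → ℕ) :
    ∃ g : ℕ → Ω → ℕ, ∀ F : Finset Ω,
      (∀ d ∈ F, ∀ e ∈ F, ∀ ξ ∈ C d, ξ ∈ C e → f d ξ = f e ξ) →
      ∃ n, ∀ d ∈ F, ∀ ξ ∈ C d, g n ξ = f d ξ := by
  classical
  have hindep : ∀ S : Set Ω, (ladGraph C f).IsIndepSet S ↔
      ∀ u ∈ S, ∀ v ∈ S, ¬ (ladGraph C f).Adj u v := by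
    intro S
    constructor
    · intro h u hu v hv hadj
      exact h hu hv hadj.ne hadj
    · intro h u hu v hv _
      exact h u hu v hv
  have hsup : ladGraph C f ⊔ ⊥ = ladGraph C f := sup_bot_eq _
  have h1 : CountableTraces (ladGraph C f) := by
    intro A hA
    by_cases hun : Uncountable Ω
    · refine (lad_traces hc C hC hfin f A hA).mono ?_
      rintro _ ⟨v, rfl⟩
      refine ⟨v, ?_⟩
      ext w
      simp only [Set.mem_ofPred_eq]
      rw [SimpleGraph.adj_comm]
    · rw [not_uncountable_iff] at hun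
      exact Set.countable_range _
  have h3 : CCCGraph (ladGraph C f ⊔ ⊥) := by
    rw [hsup]
    intro 𝒜 hA hi
    obtain ⟨F, hF, F', hF', hne, hu⟩ := lad_union hc C hC hfin f 𝒜 hA fun F hF =>
      (hindep _).1 (hi F hF)
    refine ⟨F, hF, F', hF', hne, ?_⟩
    rw [hindep]
    intro u hu' v hv'
    refine hu u ?_ v ?_
    · rw [← Finset.mem_coe, Finset.coe_union]; exact hu'
    · rw [← Finset.mem_coe, Finset.coe_union]; exact hv'
  obtain ⟨W, hW1, hW2⟩ := gplus H (card_le_aleph_one hc) (ladGraph C f) ⊥ h1 rectangular_bot h3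
  rw [hsup] at hW1 hW2
  choose g hg using fun n => lad_unif C f (W n) ((hindep _).1 (hW1 n))
  refine ⟨g, fun F hF => ?_⟩
  obtain ⟨n, hn⟩ := hW2 F (by
    rw [hindep]
    rintro u hu v hv ⟨ξ, h4, h5, h6⟩
    exact h6 (hF u hu v hv ξ h4 h5))
  exact ⟨n, fun d hd ξ hξ => hg n d (hn hd) ξ hξ⟩

end Pool.Agent.Helper87.RG
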