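import Mathlib
import Pool.Agent.Helper87.RG.Glob

set_option autoImplicit false

/-!
# The local-to-global theorem for complete Boolean algebras
-/

namespace Pool.Agent.Helper87.RG

open Set
open Pool.Agent.Helper8.KP

section

variable {B : Type} [CompleteBooleanAlgebra B]

private theorem compat_iff (x y : {x : B // x ≠ ⊥}) : Compat x y ↔ x.1 ⊓ y.1 ≠ ⊥ := by
  constructor
  · rintro ⟨r, h1, h2⟩ h
    have h3 : r.1 ≤ x.1 ⊓ y.1 := le_inf h1 h2
    rw [h] at h3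
    exact r.2 (le_bot_iff.1 h3)
  · intro h
    exact ⟨⟨x.1 ⊓ y.1, h⟩, inf_le_left, inf_le_right⟩

private theorem ccc_pos (hB : CCCB B) : CCC {x : B // x ≠ ⊥} := by
  intro A hA
  have h1 : (Subtype.val '' A : Set B).Countable := by
    refine hB _ ?_ ?_
    · rintro ⟨x, _, hx⟩
      exact x.2 hx
    · rintro _ ⟨x, hx, rfl⟩ _ ⟨y, hy, rfl⟩ hxy
      by_contra h
      exact hA x hx y hy (fun h' => hxy (by rw [h'])) ((compat_iff x y).2 h)
  exact (Set.mapsTo_image _ _).countable_of_injOn (Subtype.val_injective.injOn) h1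

private theorem sInf_mem {S : Set B} (hS : ComplSub S) {T : Set B} (hT : T ⊆ S) : sInf T ∈ S := by
  have h1 : sInf T = (sSup (compl '' T))ᶜ := by
    rw [compl_sSup]
    rw [iInf_image]
    simp only [compl_compl]
    rw [sInf_eq_iInf]
  rw [h1]
  refine hS.1 _ (hS.2 _ ?_)
  rintro _ ⟨x, hx, rfl⟩
  exact hS.1 x (hT hx)

theorem bool_local (H : Star) (hB : CCCB B)
    (hloc : ∀ S : Set B, CtblGen S → ∀ E, E ⊆ S → ⊥ ∉ E → Cardinal.mk E ≤ Cardinal.aleph 1 →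
      SigmaLinkedB E) :
    ∀ E : Set B, ⊥ ∉ E → Cardinal.mk E ≤ Cardinal.aleph 1 → SigmaLinkedB E := by
  intro E hE hcard
  obtain ⟨E', hE'⟩ : ∃ E' : Set {x : B // x ≠ ⊥}, ∀ p, p ∈ E' ↔ p.1 ∈ E := ⟨{p | p.1 ∈ E}, fun _ => Iff.rfl⟩
  have hcard' : Cardinal.mk E' ≤ Cardinal.aleph 1 := by
    refine le_trans (Cardinal.mk_le_of_injective (f := fun p : E' => (⟨p.1.1, ?_⟩ : E)) ?_) hcard
    · exact (hE' _).1 p.2
    · intro p q h
      have h1 := congrArg Subtype.val h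
      exact Subtype.ext (Subtype.ext h1)
  have key : SigmaLinked E' := by
    refine sigmaLinked_of_over H (ccc_pos hB) hcard' ?_
    intro A _ hA
    -- the subalgebra generated by `A`
    obtain ⟨S, hSdef⟩ : ∃ S : Set B, S = ⋂₀ {S' | ComplSub S' ∧ Subtype.val '' A ⊆ S'} := ⟨_, rfl⟩
    have hAS : (Subtype.val '' A : Set B) ⊆ S := by
      rw [hSdef]
      exact Set.subset_sInter fun S' h => h.2
    have hS : ComplSub S := by
      rw [hSdef]
      refine ⟨fun x hx => ?_, fun T hT => ?_⟩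
      · rintro S' ⟨h1, h2⟩
        exact h1.1 x (hx S' ⟨h1, h2⟩)
      · rintro S' ⟨h1, h2⟩
        exact h1.2 T (fun t ht => hT ht S' ⟨h1, h2⟩)
    have hgen : CtblGen S := by
      refine ⟨Subtype.val '' A, hA.image _, hS, hAS, fun S' h1 h2 => ?_⟩
      rw [hSdef]
      exact Set.sInter_subset_of_mem ⟨h1, h2⟩
    -- the projection
    obtain ⟨π, hπ⟩ : ∃ π : B → B, ∀ p, π p = sInf {s | s ∈ S ∧ p ≤ s} := ⟨_, fun _ => rfl⟩
    have hπS : ∀ p, π p ∈ S := fun p => by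
      rw [hπ]
      exact sInf_mem hS (fun s hs => hs.1)
    have hle : ∀ p, p ≤ π p := fun p => by
      rw [hπ]
      exact le_sInf fun s hs => hs.2
    have hmin : ∀ p s, s ∈ S → p ≤ s → π p ≤ s := fun p s hs h => by
      rw [hπ]
      exact sInf_le ⟨hs, h⟩
    obtain ⟨W, hW1, hW2⟩ := hloc S hgen (π '' E) (by
        rintro _ ⟨p, _, rfl⟩
        exact hπS p) (by
        rintro ⟨p, hp, h⟩
        apply hE
        have h1 := hle p
        rw [h] at h1
        rw [← le_bot_iff.1 h1]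
        exact hp) (Cardinal.mk_image_le.trans hcard)
    refine ⟨fun n => {p | π p.1 ∈ W n}, ?_, ?_⟩
    · intro p hp
      rw [hE'] at hp
      obtain ⟨n, hn⟩ := Set.mem_iUnion.1 (hW1 ⟨p.1, hp, rfl⟩)
      exact Set.mem_iUnion.2 ⟨n, hn⟩
    · intro n p hp q hq
      have h1 : π p.1 ⊓ π q.1 ≠ ⊥ := hW2 n _ hp _ hq
      have h2 : p.1 ⊓ π q.1 ≠ ⊥ := by
        intro h
        apply h1
        have h3 : p.1 ≤ (π q.1)ᶜ := le_compl_iff_disjoint_right.2 (disjoint_iff.2 h)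
        have h4 := hmin _ _ (hS.1 _ (hπS q.1)) h3
        exact disjoint_iff.1 (le_compl_iff_disjoint_right.1 h4)
      refine ⟨⟨p.1 ⊓ π q.1, h2⟩, inf_le_left, fun a ha hap => ?_⟩
      rw [compat_iff] at hap ⊢
      intro h
      apply hap
      have h3 : q.1 ≤ a.1ᶜ := le_compl_iff_disjoint_right.2 (disjoint_iff.2 (by rw [inf_comm]; exact h))
      have h4 := hmin _ _ (hS.1 _ (hAS ⟨a, ha, rfl⟩)) h3
      have h5 : a.1 ⊓ π q.1 = ⊥ := by
        rw [inf_comm]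
        exact disjoint_iff.1 (le_compl_iff_disjoint_right.1 h4)
      have h6 : a.1 ⊓ (p.1 ⊓ π q.1) ≤ a.1 ⊓ π q.1 := inf_le_inf_left _ inf_le_right
      rw [h5] at h6
      exact le_bot_iff.1 h6
  obtain ⟨W, hW1, hW2⟩ := key
  refine ⟨fun n => Subtype.val '' W n, ?_, ?_⟩
  · intro x hx
    have hx0 : x ≠ ⊥ := fun h => hE (h ▸ hx)
    obtain ⟨n, hn⟩ := Set.mem_iUnion.1 (hW1 (a := ⟨x, hx0⟩) (by rw [hE']; exact hx))
    exact Set.mem_iUnion.2 ⟨n, ⟨x, hx0⟩, hn, rfl⟩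
  · rintro n _ ⟨p, hp, rfl⟩ _ ⟨q, hq, rfl⟩
    exact (compat_iff p q).1 (hW2 n p hp q hq)

end

end Pool.Agent.Helper87.RG
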